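import Mathlib

/-!
# Definitions for the algebraic part of the four-group project

`Tri X Y Z`: three abelian groups with products `X × Y → Z`, `Y × Z → X`, `Z × X → Y`
(thought of as the odd part of a commutative ring graded by the four-group; `x y = y x` etc. is
only notation). `MX = span (Y Z)`, ... , the centroid `Cen T`, the target structure `RD T R`.
-/

universe u

namespace Pool.Agent.FourGp

/-- Three abelian groups with three bilinear products. -/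
structure Tri (X Y Z : Type u) [AddCommGroup X] [AddCommGroup Y] [AddCommGroup Z] where
  xy : X →+ Y →+ Z
  yz : Y →+ Z →+ X
  zx : Z →+ X →+ Y

namespace Tri

variable {X Y Z : Type u} [AddCommGroup X] [AddCommGroup Y] [AddCommGroup Z]

/-- No 2-torsion. -/
structure NT (_T : Tri X Y Z) : Prop where
  tx : ∀ x : X, x + x = 0 → x = 0
  ty : ∀ y : Y, y + y = 0 → y = 0
  tz : ∀ z : Z, z + z = 0 → z = 0

variable (T : Tri X Y Z)

/-- Rotation. -/
def rot : Tri Y Z X where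
  xy := T.yz
  yz := T.zx
  zx := T.xy

/-- `p (p' q) = p' (p q)` for `p, p'` in the same group and `q` in another one. -/
structure P1 : Prop where
  p1 : ∀ x x' y, T.zx (T.xy x' y) x = T.zx (T.xy x y) x'
  p2 : ∀ x x' z, T.xy x (T.zx z x') = T.xy x' (T.zx z x)
  p3 : ∀ y y' z, T.xy (T.yz y' z) y = T.xy (T.yz y z) y'
  p4 : ∀ y y' x, T.yz y (T.xy x y') = T.yz y' (T.xy x y)
  p5 : ∀ z z' x, T.yz (T.zx z' x) z = T.yz (T.zx z x) z'
  p6 : ∀ z z' y, T.zx z (T.yz y z') = T.zx z' (T.yz y z)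

/-- The subgroup of `X` spanned by the products `y z`. -/
def MX : AddSubgroup X := AddSubgroup.closure {u | ∃ y z, u = T.yz y z}

/-- The subgroup of `Y` spanned by the products `z x`. -/
def MY : AddSubgroup Y := AddSubgroup.closure {u | ∃ z x, u = T.zx z x}

/-- The subgroup of `Z` spanned by the products `x y`. -/
def MZ : AddSubgroup Z := AddSubgroup.closure {u | ∃ x y, u = T.xy x y}

/-- Strong annihilator condition. -/
structure SA : Prop where
  sxy : ∀ x, (∀ y ∈ T.MY, T.xy x y = 0) → x = 0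
  sxz : ∀ x, (∀ z ∈ T.MZ, T.zx z x = 0) → x = 0
  syz : ∀ y, (∀ z ∈ T.MZ, T.yz y z = 0) → y = 0
  syx : ∀ y, (∀ x ∈ T.MX, T.xy x y = 0) → y = 0
  szx : ∀ z, (∀ x ∈ T.MX, T.zx z x = 0) → z = 0
  szy : ∀ z, (∀ y ∈ T.MY, T.yz y z = 0) → z = 0

/-- All hypotheses. -/
structure Good : Prop where
  p : T.P1
  s : T.SA
  n : T.NT

/-- `1 + t²` acts bijectively on `Y` and on `Z`. -/
def UniX (t : X) : Prop :=
  Function.Bijective (fun y : Y => y + T.zx (T.xy t y) t) ∧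
    Function.Bijective (fun z : Z => z + T.xy t (T.zx z t))

theorem P1.rot {T : Tri X Y Z} (h : T.P1) : T.rot.P1 :=
  ⟨h.p3, h.p4, h.p5, h.p6, h.p1, h.p2⟩

theorem SA.rot {T : Tri X Y Z} (h : T.SA) : T.rot.SA :=
  ⟨h.syz, h.syx, h.szx, h.szy, h.sxy, h.sxz⟩

theorem NT.rot {T : Tri X Y Z} (h : T.NT) : T.rot.NT := ⟨h.ty, h.tz, h.tx⟩

theorem Good.rot {T : Tri X Y Z} (h : T.Good) : T.rot.Good := ⟨h.p.rot, h.s.rot, h.n.rot⟩

/-- The product `MX × MY → MZ`. -/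
def pXY (x : T.MX) (y : T.MY) : T.MZ :=
  ⟨T.xy x.1 y.1, AddSubgroup.subset_closure ⟨x.1, y.1, rfl⟩⟩

/-- The product `MY × MZ → MX`. -/
def pYZ (y : T.MY) (z : T.MZ) : T.MX :=
  ⟨T.yz y.1 z.1, AddSubgroup.subset_closure ⟨y.1, z.1, rfl⟩⟩

/-- The product `MZ × MX → MY`. -/
def pZX (z : T.MZ) (x : T.MX) : T.MY :=
  ⟨T.zx z.1 x.1, AddSubgroup.subset_closure ⟨z.1, x.1, rfl⟩⟩

theorem pXY_add (x x' : T.MX) (y : T.MY) : T.pXY (x + x') y = T.pXY x y + T.pXY x' y := by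
  apply Subtype.ext; simp [pXY]

theorem pXY_add' (x : T.MX) (y y' : T.MY) : T.pXY x (y + y') = T.pXY x y + T.pXY x y' := by
  apply Subtype.ext; simp [pXY]

theorem pYZ_add (y y' : T.MY) (z : T.MZ) : T.pYZ (y + y') z = T.pYZ y z + T.pYZ y' z := by
  apply Subtype.ext; simp [pYZ]

theorem pYZ_add' (y : T.MY) (z z' : T.MZ) : T.pYZ y (z + z') = T.pYZ y z + T.pYZ y z' := by
  apply Subtype.ext; simp [pYZ]

theorem pZX_add (z z' : T.MZ) (x : T.MX) : T.pZX (z + z') x = T.pZX z x + T.pZX z' x := by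
  apply Subtype.ext; simp [pZX]

theorem pZX_add' (z : T.MZ) (x x' : T.MX) : T.pZX z (x + x') = T.pZX z x + T.pZX z x' := by
  apply Subtype.ext; simp [pZX]

theorem pXY_zero (y : T.MY) : T.pXY 0 y = 0 := by apply Subtype.ext; simp [pXY]
theorem pXY_zero' (x : T.MX) : T.pXY x 0 = 0 := by apply Subtype.ext; simp [pXY]
theorem pYZ_zero (z : T.MZ) : T.pYZ 0 z = 0 := by apply Subtype.ext; simp [pYZ]
theorem pYZ_zero' (y : T.MY) : T.pYZ y 0 = 0 := by apply Subtype.ext; simp [pYZ]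
theorem pZX_zero (x : T.MX) : T.pZX 0 x = 0 := by apply Subtype.ext; simp [pZX]
theorem pZX_zero' (z : T.MZ) : T.pZX z 0 = 0 := by apply Subtype.ext; simp [pZX]

theorem pXY_neg (x : T.MX) (y : T.MY) : T.pXY (-x) y = -T.pXY x y := by
  apply Subtype.ext; simp [pXY]
theorem pXY_neg' (x : T.MX) (y : T.MY) : T.pXY x (-y) = -T.pXY x y := by
  apply Subtype.ext; simp [pXY]
theorem pYZ_neg (y : T.MY) (z : T.MZ) : T.pYZ (-y) z = -T.pYZ y z := by
  apply Subtype.ext; simp [pYZ]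
theorem pYZ_neg' (y : T.MY) (z : T.MZ) : T.pYZ y (-z) = -T.pYZ y z := by
  apply Subtype.ext; simp [pYZ]
theorem pZX_neg (z : T.MZ) (x : T.MX) : T.pZX (-z) x = -T.pZX z x := by
  apply Subtype.ext; simp [pZX]
theorem pZX_neg' (z : T.MZ) (x : T.MX) : T.pZX z (-x) = -T.pZX z x := by
  apply Subtype.ext; simp [pZX]

/-- Membership in the centroid: the triple of endomorphisms commutes with all products. -/
structure IsCen (e : AddMonoid.End T.MX × AddMonoid.End T.MY × AddMonoid.End T.MZ) : Prop where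
  xy : ∀ x y, e.2.2 (T.pXY x y) = T.pXY (e.1 x) y
  xy' : ∀ x y, e.2.2 (T.pXY x y) = T.pXY x (e.2.1 y)
  yz : ∀ y z, e.1 (T.pYZ y z) = T.pYZ (e.2.1 y) z
  yz' : ∀ y z, e.1 (T.pYZ y z) = T.pYZ y (e.2.2 z)
  zx : ∀ z x, e.2.1 (T.pZX z x) = T.pZX (e.2.2 z) x
  zx' : ∀ z x, e.2.1 (T.pZX z x) = T.pZX z (e.1 x)

/-- The centroid. -/
def Cen : Subring (AddMonoid.End T.MX × AddMonoid.End T.MY × AddMonoid.End T.MZ) where
  carrier := {e | T.IsCen e}
  mul_mem' := by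
    intro e f he hf
    constructor
    · intro x y
      change e.2.2 (f.2.2 _) = T.pXY (e.1 (f.1 x)) y
      rw [hf.xy, he.xy]
    · intro x y
      change e.2.2 (f.2.2 _) = T.pXY x (e.2.1 (f.2.1 y))
      rw [hf.xy', he.xy']
    · intro x y
      change e.1 (f.1 _) = T.pYZ (e.2.1 (f.2.1 x)) y
      rw [hf.yz, he.yz]
    · intro x y
      change e.1 (f.1 _) = T.pYZ x (e.2.2 (f.2.2 y))
      rw [hf.yz', he.yz']
    · intro x y
      change e.2.1 (f.2.1 _) = T.pZX (e.2.2 (f.2.2 x)) y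
      rw [hf.zx, he.zx]
    · intro x y
      change e.2.1 (f.2.1 _) = T.pZX x (e.1 (f.1 y))
      rw [hf.zx', he.zx']
  one_mem' := ⟨fun _ _ => rfl, fun _ _ => rfl, fun _ _ => rfl, fun _ _ => rfl, fun _ _ => rfl,
    fun _ _ => rfl⟩
  add_mem' := by
    intro e f he hf
    constructor
    · intro x y
      change e.2.2 _ + f.2.2 _ = T.pXY (e.1 x + f.1 x) y
      rw [hf.xy, he.xy, pXY_add]
    · intro x y
      change e.2.2 _ + f.2.2 _ = T.pXY x (e.2.1 y + f.2.1 y)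
      rw [hf.xy', he.xy', pXY_add']
    · intro x y
      change e.1 _ + f.1 _ = T.pYZ (e.2.1 x + f.2.1 x) y
      rw [hf.yz, he.yz, pYZ_add]
    · intro x y
      change e.1 _ + f.1 _ = T.pYZ x (e.2.2 y + f.2.2 y)
      rw [hf.yz', he.yz', pYZ_add']
    · intro x y
      change e.2.1 _ + f.2.1 _ = T.pZX (e.2.2 x + f.2.2 x) y
      rw [hf.zx, he.zx, pZX_add]
    · intro x y
      change e.2.1 _ + f.2.1 _ = T.pZX x (e.1 y + f.1 y)
      rw [hf.zx', he.zx', pZX_add']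
  zero_mem' := by
    constructor
    · intro x y; exact (T.pXY_zero y).symm
    · intro x y; exact (T.pXY_zero' x).symm
    · intro x y; exact (T.pYZ_zero y).symm
    · intro x y; exact (T.pYZ_zero' x).symm
    · intro x y; exact (T.pZX_zero y).symm
    · intro x y; exact (T.pZX_zero' x).symm
  neg_mem' := by
    intro e he
    constructor
    · intro x y
      change -e.2.2 _ = T.pXY (-e.1 x) y
      rw [he.xy, pXY_neg]
    · intro x y
      change -e.2.2 _ = T.pXY x (-e.2.1 y)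
      rw [he.xy', pXY_neg']
    · intro x y
      change -e.1 _ = T.pYZ (-e.2.1 x) y
      rw [he.yz, pYZ_neg]
    · intro x y
      change -e.1 _ = T.pYZ x (-e.2.2 y)
      rw [he.yz', pYZ_neg']
    · intro x y
      change -e.2.1 _ = T.pZX (-e.2.2 x) y
      rw [he.zx, pZX_neg]
    · intro x y
      change -e.2.1 _ = T.pZX x (-e.1 y)
      rw [he.zx', pZX_neg']

/-- The element `e` of the centroid is multiplication by `x x'` (`x, x' ∈ X`). -/
structure IsForm (x x' : X) (e : AddMonoid.End T.MX × AddMonoid.End T.MY × AddMonoid.End T.MZ) :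
    Prop where
  cen : T.IsCen e
  my : ∀ m : T.MY, (e.2.1 m).1 = T.zx (T.xy x' m.1) x
  mz : ∀ m : T.MZ, (e.2.2 m).1 = T.xy x (T.zx m.1 x')
  /-- tested against all of `Y` and `Z` -/
  mx : ∀ (m : T.MX) (y : Y), T.xy (e.1 m).1 y = T.xy m.1 (T.zx (T.xy x' y) x)
  mx' : ∀ (m : T.MX) (z : Z), T.zx z (e.1 m).1 = T.zx (T.xy x (T.zx z x')) m.1

end Tri

/-- Abstract graded system: `E` commutative ring, `MX, MY, MZ` modules with `E`-bilinear products
and symmetric forms. -/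
structure GS (E MX MY MZ : Type u) [CommRing E] [AddCommGroup MX] [AddCommGroup MY]
    [AddCommGroup MZ] [Module E MX] [Module E MY] [Module E MZ] where
  xy : MX →ₗ[E] MY →ₗ[E] MZ
  yz : MY →ₗ[E] MZ →ₗ[E] MX
  zx : MZ →ₗ[E] MX →ₗ[E] MY
  fx : MX →ₗ[E] MX →ₗ[E] E
  fy : MY →ₗ[E] MY →ₗ[E] E
  fz : MZ →ₗ[E] MZ →ₗ[E] E
  fx_symm : ∀ x x', fx x x' = fx x' x
  fy_symm : ∀ y y', fy y y' = fy y' y
  fz_symm : ∀ z z', fz z z' = fz z' z
  xxy : ∀ x x' y, fx x x' • y = zx (xy x' y) x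
  xxz : ∀ x x' z, fx x x' • z = xy x (zx z x')
  yyz : ∀ y y' z, fy y y' • z = xy (yz y' z) y
  yyx : ∀ y y' x, fy y y' • x = yz y (xy x y')
  zzx : ∀ z z' x, fz z z' • x = yz (zx z' x) z
  zzy : ∀ z z' y, fz z z' • y = zx z (yz y z')
  xxx : ∀ x x' x'', fx x x' • x'' = fx x' x'' • x
  yyy : ∀ y y' y'', fy y y' • y'' = fy y' y'' • y
  zzz : ∀ z z' z'', fz z z' • z'' = fz z' z'' • z
  xyz : ∀ x y z, fz (xy x y) z = fx x (yz y z)
  yzx : ∀ x y z, fx x (yz y z) = fy y (zx z x)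

/-- The commutative ring we want: graded pieces `R0`, `jx MX`, `jy MY`, `jz MZ`. -/
structure RD {X Y Z : Type u} [AddCommGroup X] [AddCommGroup Y] [AddCommGroup Z] (T : Tri X Y Z)
    (R : Type u) [CommRing R] where
  R0 : Subring R
  jx : T.MX →+ R
  jy : T.MY →+ R
  jz : T.MZ →+ R
  jxi : Function.Injective jx
  jyi : Function.Injective jy
  jzi : Function.Injective jz
  xy : ∀ x y, jx x * jy y = jz (T.pXY x y)
  yz : ∀ y z, jy y * jz z = jx (T.pYZ y z)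
  zx : ∀ z x, jz z * jx x = jy (T.pZX z x)
  xx : ∀ x x', jx x * jx x' ∈ R0
  yy : ∀ y y', jy y * jy y' ∈ R0
  zz : ∀ z z', jz z * jz z' ∈ R0
  rx : ∀ r ∈ R0, ∀ x, ∃ x', r * jx x = jx x'
  ry : ∀ r ∈ R0, ∀ y, ∃ y', r * jy y = jy y'
  rz : ∀ r ∈ R0, ∀ z, ∃ z', r * jz z = jz z'
  ux : ∀ t : T.MX, T.UniX t.1 → ∃ u ∈ R0, u * (1 + jx t * jx t) = 1
  uy : ∀ t : T.MY, T.rot.UniX t.1 → ∃ u ∈ R0, u * (1 + jy t * jy t) = 1
  uz : ∀ t : T.MZ, T.rot.rot.UniX t.1 → ∃ u ∈ R0, u * (1 + jz t * jz t) = 1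
  nt : ∀ r : R, r + r = 0 → r = 0

end Pool.Agent.FourGp
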