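import Pool.Agent.Lib.MP_fb3619_al.Base3
import Pool.Agent.Lib.MP_fb3619_al.H98.Coor
import Pool.Agent.Lib.MP_fb3619_al.H98.Tran
import Pool.Agent.Lib.MP_fb3619_al.H98.Vecx
import Pool.Agent.Lib.MP_fb3619_al.H45.Inc
import Pool.Agent.Lib.MP_fb3619_al.H18.Rotx
import Pool.Agent.Lib.MP_fb3619_al.H18.Acta
import Pool.Agent.Lib.MP_fb3619_al.H70.Fact
import Pool.Agent.Lib.MP_fb3619_al.H82.Rota
import Pool.Agent.Lib.MP_fb3619_al.H70.Chain
import Pool.Agent.Lib.MP_fb3619_al.H27.Modm
import Pool.Agent.Lib.MP_fb3619_al.H27.Sah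
import Pool.Agent.Lib.MP_fb3619_al.H78.Fink

/-!
# Assembly: a periodic group without involutions on which a four-group acts without nontrivial
common fixed points is locally finite (MP_fb3619_al)
-/

universe u

namespace Pool.Agent.FourGp

theorem part3_coor : CoorS.{u} := H98.coor
theorem part3_tran : TranS.{u} := H98.tran
theorem part3_inc : IncS.{u} := H45.inc part3_coor part3_tran
theorem part3_rota : RotaS.{u} := H82.rota part3_coor part3_tran
theorem part3_rotx : RotxS.{u} := H18.rotx part3_coor part3_inc part3_rota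
theorem part3_fact : FactS.{u} := H70.fact
theorem part3_chain : ChainS.{u} := H70.chain part3_fact
theorem part3_modm : ModmS.{u} := H27.modm part3_coor part3_inc
theorem part3_sah : SahS.{u} := H27.sah part3_rotx part3_modm part3_chain
theorem part3_vecx : VecxS.{u} := H98.vecx part3_coor part3_sah part3_chain
theorem part3_acta : ActaS.{u} := H18.acta part3_coor part3_inc part3_rotx
theorem part3_fink : FinkS.{u} :=
  H78.fink part3_coor part3_rotx part3_fact part3_chain part3_sah part3_vecx part3_acta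

/-- The main theorem in terms of automorphisms. -/
theorem part3_main : MainS.{u} := by
  intro K _ σ τ hK S hS
  by_contra hinf
  rw [not_finite_iff_infinite] at hinf
  obtain ⟨K1, _, σ1, τ1, h1, h2, h3⟩ := part1_locf K σ τ hK S hS hinf
  obtain ⟨K2, _, σ2, τ2, h4⟩ := part1_zorn K1 σ1 τ1 h1 h2 h3
  obtain ⟨G, _, N, a, b, c, h5, h6⟩ := part1_semi K2 σ2 τ2 h4
  exact part3_fink G ⊤ N a b c h5 h6

end Pool.Agent.FourGp
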