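import Mathlib

/-!
# Definitions for the four-group project (MP_fb3619_al)

Part 1: abstract incidence geometries with three types (points = lines), their collineations,
perspectivities, the translation groups `Nn v x`, the relation `sim`.
Part 2: configurations `Cfg H K a b c` in a group and the geometry `inc H K` of involutions.
-/

universe u

namespace Pool.Agent.FourGp

open Equiv

/-! ## Part 1: abstract geometry -/

/-- Incidence data: `st` = same type, `perp` = incidence (points and lines are the same objects),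
`cr x y` = the common perpendicular of `x` and `y` (different types). -/
structure Inc (P : Type u) where
  st : P → P → Prop
  perp : P → P → Prop
  cr : P → P → P

namespace Inc

variable {P : Type u} (g : Inc P)

/-- The axioms: `st` is an equivalence relation with at most three classes, `perp` is symmetric and
relates elements of different types only, and two elements of different types have exactly one
common perpendicular. -/
structure IsGeo : Prop where
  st_refl : ∀ x, g.st x x
  st_symm : ∀ x y, g.st x y → g.st y x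
  st_trans : ∀ x y z, g.st x y → g.st y z → g.st x z
  three : ∀ x y z w, ¬ g.st x y → ¬ g.st x z → ¬ g.st y z → ¬ g.st w x → ¬ g.st w y → g.st w z
  perp_symm : ∀ x y, g.perp x y → g.perp y x
  perp_st : ∀ x y, g.perp x y → ¬ g.st x y
  cr_l : ∀ x y, ¬ g.st x y → g.perp x (g.cr x y)
  cr_r : ∀ x y, ¬ g.st x y → g.perp y (g.cr x y)
  uniq : ∀ x y z, ¬ g.st x y → g.perp x z → g.perp y z → z = g.cr x y

/-- Collineations: pairs (action on points, action on lines). -/
structure Col (φ : Perm P × Perm P) : Prop where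
  tp : ∀ x, g.st x (φ.1 x)
  tl : ∀ x, g.st x (φ.2 x)
  inc : ∀ x y, g.perp x y ↔ g.perp (φ.1 x) (φ.2 y)

/-- Collineations with axis `x` and centre `v`: they fix all points on the line `x` and all lines
through the point `v`. -/
structure TT (v x : P) (φ : Perm P × Perm P) : Prop extends g.Col φ where
  pts : ∀ y, g.perp x y → φ.1 y = y
  lns : ∀ l, g.perp v l → φ.2 l = l

/-- Weak form: only the lines through `v` of the type different from `x` are fixed. -/
structure TW (v x : P) (φ : Perm P × Perm P) : Prop extends g.Col φ where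
  pts : ∀ y, g.perp x y → φ.1 y = y
  lns : ∀ l, g.perp v l → ¬ g.st l x → φ.2 l = l

/-- Perspectivity with centre `w` to the line `m`. -/
def pr (w m y : P) : P := g.cr (g.cr y w) m

/-- `f(w₁, w₂; n, m)`: from the line `n` to `m` with centre `w₁`, back to `n` with centre `w₂`. -/
def fm (w₁ w₂ n m y : P) : P := g.pr w₂ n (g.pr w₁ m y)

/-- Admissible data for an f-map with centre `v` and axis `x`: `w₁, w₂` are points on `x`, `n, m`
lines through `v`, all four of the third type. -/
structure Adm (v x w₁ w₂ n m : P) : Prop where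
  vx : g.perp v x
  xw₁ : g.perp x w₁
  xw₂ : g.perp x w₂
  vn : g.perp v n
  vm : g.perp v m
  sw₁ : ¬ g.st w₁ v
  sw₂ : ¬ g.st w₂ v
  sn : ¬ g.st n x
  sm : ¬ g.st m x

/-- The collineation `φ` with axis `x` and centre `v` induces the f-map `f(w₁, w₂; n, m)` on the
points of the line `n` of the type of `x`. -/
def Ind (v x w₁ w₂ n m : P) (φ : Perm P × Perm P) : Prop :=
  g.Adm v x w₁ w₂ n m ∧ g.TT v x φ ∧ ∀ y, g.st y x → g.perp y n → φ.1 y = g.fm w₁ w₂ n m y

/-- Lemma F: every f-map is induced by a collineation with the right axis and centre. -/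
def LemF : Prop := ∀ v x w₁ w₂ n m, g.Adm v x w₁ w₂ n m → ∃ φ, g.Ind v x w₁ w₂ n m φ

/-- The group generated by the collineations inducing f-maps. -/
def Nn (v x : P) : Subgroup (Perm P × Perm P) :=
  Subgroup.closure {φ | ∃ w₁ w₂ n m, g.Ind v x w₁ w₂ n m φ}

/-- The group generated by all `Nn v x`, `x` fixed. -/
def NN (x : P) : Subgroup (Perm P × Perm P) := Subgroup.closure {φ | ∃ v, φ ∈ g.Nn v x}

/-- Elementary step: `y, y'` on a line `n`; `y, z` on `l`, `z, y'` on `l'`, where `l, l'` have the
same type, different from the type of `n`. -/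
def R1 (y y' : P) : Prop := ∃ n l l' z, g.perp n y ∧ g.perp n y' ∧ g.st y z ∧ g.perp l y ∧
  g.perp l z ∧ g.perp l' z ∧ g.perp l' y' ∧ g.st l l' ∧ ¬ g.st l n

/-- The equivalence relation generated by `R1`. -/
def sim : P → P → Prop := Relation.EqvGen g.R1

end Inc

namespace Inc.IsGeo

variable {P : Type u} {g : Inc P}

/-- Labels: it is convenient to replace types by numbers and to use `omega`. -/
theorem label (h : g.IsGeo) : ∃ t : P → ℕ, (∀ x, t x < 3) ∧ ∀ x y, g.st x y ↔ t x = t y := by
  classical
  by_cases h1 : ∃ x y, ¬ g.st x y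
  · obtain ⟨x, y, hxy⟩ := h1
    refine ⟨fun z => if g.st z x then 0 else if g.st z y then 1 else 2, ?_, ?_⟩
    · intro z; dsimp only; split_ifs <;> norm_num
    · intro z w
      have tr := h.st_trans
      have sy := h.st_symm
      dsimp only
      by_cases hzx : g.st z x <;> by_cases hwx : g.st w x <;> by_cases hzy : g.st z y <;>
        by_cases hwy : g.st w y
      all_goals simp only [hzx, hwx, hzy, hwy, if_true, if_false]
      all_goals first
        | (exact absurd (tr _ _ _ (sy _ _ hzx) hzy) hxy)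
        | (exact absurd (tr _ _ _ (sy _ _ hwx) hwy) hxy)
        | (refine iff_of_true ?_ (by norm_num); exact tr _ _ _ hzx (sy _ _ hwx))
        | (refine iff_of_true ?_ (by norm_num); exact tr _ _ _ hzy (sy _ _ hwy))
        | (refine iff_of_false ?_ (by norm_num); intro hzw; exact hwx (tr _ _ _ (sy _ _ hzw) hzx))
        | (refine iff_of_false ?_ (by norm_num); intro hzw; exact hzx (tr _ _ _ hzw hwx))
        | (refine iff_of_false ?_ (by norm_num); intro hzw; exact hwy (tr _ _ _ (sy _ _ hzw) hzy))
        | (refine iff_of_false ?_ (by norm_num); intro hzw; exact hzy (tr _ _ _ hzw hwy))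
        | skip
      refine iff_of_true ?_ (by norm_num)
      exact h.three x y w z hxy (fun e => hwx (sy _ _ e)) (fun e => hwy (sy _ _ e)) hzx hzy
  · push Not at h1
    exact ⟨fun _ => 0, fun _ => by norm_num, fun x y => ⟨fun _ => rfl, fun _ => h1 x y⟩⟩

theorem cr_comm (h : g.IsGeo) {x y : P} (hxy : ¬ g.st x y) : g.cr x y = g.cr y x := by
  refine h.uniq y x _ (fun e => hxy (h.st_symm _ _ e)) (h.cr_r _ _ hxy) (h.cr_l _ _ hxy)

theorem sim_symm {x y : P} (e : g.sim x y) : g.sim y x := Relation.EqvGen.symm _ _ e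

theorem sim_trans {x y z : P} (e : g.sim x y) (f : g.sim y z) : g.sim x z :=
  Relation.EqvGen.trans _ _ _ e f

end Inc.IsGeo

/-! ## Part 2: configurations in a group -/

variable {G : Type u} [Group G]

/-- `H = K ⋊ {1, a, b, c}`, all elements of `K` have odd order, `C_K(a, b) = 1`. -/
structure Cfg (H K : Subgroup G) (a b c : G) : Prop where
  le : K ≤ H
  ha : a ∈ H
  hb : b ∈ H
  hc : c ∈ H
  nor : ∀ h ∈ H, ∀ k ∈ K, h⁻¹ * k * h ∈ K
  haa : a * a = 1
  hbb : b * b = 1
  hcc : c * c = 1
  habc : a * b * c = 1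
  ea : a ∉ K
  eb : b ∉ K
  ec : c ∉ K
  top : ∀ h ∈ H, h ∈ K ∨ h * a ∈ K ∨ h * b ∈ K ∨ h * c ∈ K
  odd : ∀ k ∈ K, ∃ n : ℕ, k ^ (2 * n + 1) = 1
  cent : ∀ k ∈ K, a * k = k * a → b * k = k * b → k = 1

namespace Cfg

variable {H K : Subgroup G} {a b c : G}

theorem ab (h : Cfg H K a b c) : a * b = c := by
  have := h.habc
  calc a * b = a * b * (c * c) := by rw [h.hcc, mul_one]
    _ = (a * b * c) * c := by group
    _ = c := by rw [this, one_mul]

theorem bc (h : Cfg H K a b c) : b * c = a := by
  calc b * c = (a * a) * (b * c) := by rw [h.haa, one_mul]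
    _ = a * (a * b * c) := by group
    _ = a := by rw [h.habc, mul_one]

theorem ba (h : Cfg H K a b c) : b * a = c := by
  have e : (a * b)⁻¹ = b * a := by
    rw [mul_inv_rev, inv_eq_of_mul_eq_one_right h.haa, inv_eq_of_mul_eq_one_right h.hbb]
  rw [← e, h.ab, inv_eq_of_mul_eq_one_right h.hcc]

theorem cb (h : Cfg H K a b c) : c * b = a := by
  rw [← h.ab, mul_assoc, h.hbb, mul_one]

theorem ca (h : Cfg H K a b c) : c * a = b := by
  rw [← h.ba, mul_assoc, h.haa, mul_one]

theorem ac (h : Cfg H K a b c) : a * c = b := by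
  rw [← h.ab, ← mul_assoc, h.haa, one_mul]

/-- Rotation `(a, b, c) → (b, c, a)`. -/
theorem rot (h : Cfg H K a b c) : Cfg H K b c a where
  le := h.le
  ha := h.hb
  hb := h.hc
  hc := h.ha
  nor := h.nor
  haa := h.hbb
  hbb := h.hcc
  hcc := h.haa
  habc := by rw [h.bc, h.haa]
  ea := h.eb
  eb := h.ec
  ec := h.ea
  top := fun x hx => by rcases h.top x hx with e | e | e | e <;> tauto
  odd := h.odd
  cent := fun k hk h1 h2 => h.cent k hk (by
    rw [← h.bc, mul_assoc, h2, ← mul_assoc, h1, mul_assoc]) h1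

/-- Exchange `(a, b, c) → (b, a, c)`. -/
theorem swap (h : Cfg H K a b c) : Cfg H K b a c where
  le := h.le
  ha := h.hb
  hb := h.ha
  hc := h.hc
  nor := h.nor
  haa := h.hbb
  hbb := h.haa
  hcc := h.hcc
  habc := by rw [h.ba, h.hcc]
  ea := h.eb
  eb := h.ea
  ec := h.ec
  top := fun x hx => by rcases h.top x hx with e | e | e | e <;> tauto
  odd := h.odd
  cent := fun k hk h1 h2 => h.cent k hk h2 h1

end Cfg

/-- `x` is an involution of `H`. -/
def IsPt (H : Subgroup G) (x : G) : Prop := x ∈ H ∧ x * x = 1 ∧ x ≠ 1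

/-- The points (= lines): the involutions of `H`. -/
def Pt (H : Subgroup G) : Type u := {x : G // IsPt H x}

/-- The involution of the cyclic group generated by `x` (if `x ^ 2` has odd order and `x ∉ K`). -/
noncomputable def iota (x : G) : G := x ^ orderOf (x * x)

open Classical in
/-- The geometry of involutions of `H` relative to `K`. -/
noncomputable def inc (H K : Subgroup G) : Inc (Pt H) where
  st x y := x.1 * y.1 ∈ K
  perp x y := x.1 * y.1 = y.1 * x.1 ∧ x.1 ≠ y.1
  cr x y := if h : IsPt H (iota (x.1 * y.1)) then ⟨_, h⟩ else x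

/-- Conjugation by an element of `H`, `x ↦ k⁻¹ x k`. -/
def cj (H : Subgroup G) (k : H) : Perm (Pt H) where
  toFun x := ⟨(k : G)⁻¹ * x.1 * k, H.mul_mem (H.mul_mem (H.inv_mem k.2) x.2.1) k.2, by
    have := x.2.2.1
    calc (k : G)⁻¹ * x.1 * k * ((k : G)⁻¹ * x.1 * k) = (k : G)⁻¹ * (x.1 * x.1) * k := by group
      _ = 1 := by rw [this]; group, by
    intro e
    apply x.2.2.2
    calc x.1 = k * ((k : G)⁻¹ * x.1 * k) * (k : G)⁻¹ := by group
      _ = 1 := by rw [e]; group⟩
  invFun x := ⟨(k : G) * x.1 * (k : G)⁻¹, H.mul_mem (H.mul_mem k.2 x.2.1) (H.inv_mem k.2), by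
    have := x.2.2.1
    calc (k : G) * x.1 * (k : G)⁻¹ * ((k : G) * x.1 * (k : G)⁻¹)
        = (k : G) * (x.1 * x.1) * (k : G)⁻¹ := by group
      _ = 1 := by rw [this]; group, by
    intro e
    apply x.2.2.2
    calc x.1 = (k : G)⁻¹ * ((k : G) * x.1 * (k : G)⁻¹) * k := by group
      _ = 1 := by rw [e]; group⟩
  left_inv x := by apply Subtype.ext; dsimp only; group
  right_inv x := by apply Subtype.ext; dsimp only; group

@[simp] theorem cj_val (H : Subgroup G) (k : H) (x : Pt H) :
    (cj H k x).1 = (k : G)⁻¹ * x.1 * k := rfl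

/-- Elements of `K` fixing all `sim`-classes: the first reduction `K⁰`. -/
def K0 (H K : Subgroup G) : Subgroup G where
  carrier := {k | k ∈ K ∧ k ∈ H ∧ ∀ x y : Pt H, y.1 = k⁻¹ * x.1 * k → (inc H K).sim x y}
  mul_mem' := by
    rintro k l ⟨hk, hk', ek⟩ ⟨hl, hl', el⟩
    refine ⟨K.mul_mem hk hl, H.mul_mem hk' hl', fun x y e => ?_⟩
    refine Relation.EqvGen.trans _ _ _ (ek x (cj H ⟨k, hk'⟩ x) rfl) (el _ y ?_)
    rw [e, cj_val]
    group
  one_mem' := by
    refine ⟨K.one_mem, H.one_mem, fun x y e => ?_⟩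
    have : y = x := by apply Subtype.ext; rw [e]; group
    rw [this]
    exact Relation.EqvGen.refl _
  inv_mem' := by
    rintro k ⟨hk, hk', ek⟩
    refine ⟨K.inv_mem hk, H.inv_mem hk', fun x y e => ?_⟩
    refine Relation.EqvGen.symm _ _ (ek y x ?_)
    rw [e]
    group

end Pool.Agent.FourGp
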