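import Pool.Agent.Lib.MP_fb3619_al.Part1

/-!
# Part 2: the additive groups `J h`

For `h : Cfg H K a b c`, `J h` is the set `K⁰ ∩ C_K(c)` with the addition coming from the
translations `Nn pa pb` acting on the points `b γ` of the line `c`.
`J h.rot` belongs to `a`, `J h.rot.rot` to `b` (and `J h.rot.rot.rot` is `J h` by `rfl`).
-/

universe u

namespace Pool.Agent.FourGp

open Equiv

/-! ## Groups from commuting transitive families of maps -/

section transAdd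

variable {X N : Type u} (x₀ : X) (act : N → X → X) (htr : ∀ x y, ∃ n, act n x = y)
  (hc : ∀ n m x, act n (act m x) = act m (act n x))

/-- The translation moving `x₀` to `x`. -/
noncomputable def transOf (x : X) : N := Classical.choose (htr x₀ x)

theorem transOf_spec (x : X) : act (transOf x₀ act htr x) x₀ = x := Classical.choose_spec (htr x₀ x)

include hc in
theorem transOf_eq (n : N) (x : X) (h : act n x₀ = x) (y : X) :
    act (transOf x₀ act htr x) y = act n y := by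
  obtain ⟨m, rfl⟩ := htr x₀ y
  rw [hc, transOf_spec x₀ act htr, hc n, h]

/-- The abelian group structure with zero `x₀` such that the maps `act n` are translations. -/
@[reducible] noncomputable def transAdd : AddCommGroup X where
  add x y := act (transOf x₀ act htr x) y
  zero := x₀
  neg x := act (Classical.choose (htr x x₀)) x₀
  add_assoc x y z := by
    change act (transOf x₀ act htr (act (transOf x₀ act htr x) y)) z =
      act (transOf x₀ act htr x) (act (transOf x₀ act htr y) z)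
    obtain ⟨m, rfl⟩ := htr x₀ z
    rw [hc _ m, transOf_spec x₀ act htr, hc (transOf x₀ act htr y) m, transOf_spec x₀ act htr,
      hc _ m]
  zero_add x := by
    change act (transOf x₀ act htr x₀) x = x
    obtain ⟨m, rfl⟩ := htr x₀ x
    rw [hc, transOf_spec x₀ act htr]
  add_zero x := transOf_spec x₀ act htr x
  neg_add_cancel x := by
    change act (transOf x₀ act htr (act (Classical.choose (htr x x₀)) x₀)) x = x₀
    have h := Classical.choose_spec (htr x x₀)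
    rw [transOf_eq x₀ act htr hc (Classical.choose (htr x x₀)) _ rfl, h]
  add_comm x y := by
    change act (transOf x₀ act htr x) y = act (transOf x₀ act htr y) x
    conv_lhs => rw [← transOf_spec x₀ act htr y]
    rw [hc, transOf_spec x₀ act htr]
  nsmul := @nsmulRec X ⟨x₀⟩ ⟨fun x y => act (transOf x₀ act htr x) y⟩
  zsmul := @zsmulRec X ⟨x₀⟩ ⟨fun x y => act (transOf x₀ act htr x) y⟩
    ⟨fun x => act (Classical.choose (htr x x₀)) x₀⟩
    (@nsmulRec X ⟨x₀⟩ ⟨fun x y => act (transOf x₀ act htr x) y⟩)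

theorem transAdd_zero : (transAdd x₀ act htr hc).toZero.zero = x₀ := rfl

theorem transAdd_act (n : N) (x y : X) (h : act n x₀ = x) :
    act n y = (transAdd x₀ act htr hc).toAdd.add x y :=
  (transOf_eq x₀ act htr hc n x h y).symm

end transAdd

variable {G : Type u} [Group G] {H K : Subgroup G} {a b c : G}

theorem K0_le (H K : Subgroup G) : K0 H K ≤ K := fun _ hk => hk.1

namespace Cfg

theorem geo (h : Cfg H K a b c) : (inc H K).IsGeo := (part1_geom G H K a b c h).1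

theorem cr_val (h : Cfg H K a b c) {x y : Pt H} (e : (inc H K).perp x y) :
    ((inc H K).cr x y).1 = x.1 * y.1 := (part1_geom G H K a b c h).2.2 x y e

theorem lemF (h : Cfg H K a b c) : (inc H K).LemF := part1_lemf G H K a b c h

/-- The point `a`. -/
def pa (h : Cfg H K a b c) : Pt H := ⟨a, h.ha, h.haa, fun e => h.ea (e ▸ K.one_mem)⟩

/-- The point `b`. -/
def pb (h : Cfg H K a b c) : Pt H := ⟨b, h.hb, h.hbb, fun e => h.eb (e ▸ K.one_mem)⟩

/-- The point `c`. -/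
def pc (h : Cfg H K a b c) : Pt H := ⟨c, h.hc, h.hcc, fun e => h.ec (e ▸ K.one_mem)⟩

theorem ne_ab (h : Cfg H K a b c) : a ≠ b := fun e => h.ec (by
  rw [← h.ab, e, h.hbb]; exact K.one_mem)

theorem pab (h : Cfg H K a b c) : (inc H K).perp h.pa h.pb :=
  ⟨h.ab.trans h.ba.symm, h.ne_ab⟩

theorem pbc (h : Cfg H K a b c) : (inc H K).perp h.pb h.pc := h.rot.pab

theorem pca (h : Cfg H K a b c) : (inc H K).perp h.pc h.pa := h.rot.rot.pab

theorem pba (h : Cfg H K a b c) : (inc H K).perp h.pb h.pa := h.geo.perp_symm _ _ h.pab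

theorem pcb (h : Cfg H K a b c) : (inc H K).perp h.pc h.pb := h.geo.perp_symm _ _ h.pbc

theorem pac (h : Cfg H K a b c) : (inc H K).perp h.pa h.pc := h.geo.perp_symm _ _ h.pca

/-- `a` inverts `C_K(c)`. -/
theorem inv_a (h : Cfg H K a b c) {γ : G} (hγ : γ ∈ K) (e : γ * c = c * γ) : a * γ * a = γ⁻¹ :=
  part1_invt G H K c a b h.rot.rot γ hγ e.symm

/-- `b` inverts `C_K(c)`. -/
theorem inv_b (h : Cfg H K a b c) {γ : G} (hγ : γ ∈ K) (e : γ * c = c * γ) : b * γ * b = γ⁻¹ :=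
  part1_invt G H K c b a h.rot.swap γ hγ e.symm

theorem mul_a (h : Cfg H K a b c) {γ : G} (hγ : γ ∈ K) (e : γ * c = c * γ) :
    γ * a = a * γ⁻¹ := by
  rw [← h.inv_a hγ e]
  calc γ * a = 1 * (γ * a) := (one_mul _).symm
    _ = a * a * (γ * a) := by rw [h.haa]
    _ = a * (a * γ * a) := by group

theorem mul_b (h : Cfg H K a b c) {γ : G} (hγ : γ ∈ K) (e : γ * c = c * γ) :
    γ * b = b * γ⁻¹ := by
  rw [← h.inv_b hγ e]
  calc γ * b = 1 * (γ * b) := (one_mul _).symm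
    _ = b * b * (γ * b) := by rw [h.hbb]
    _ = b * (b * γ * b) := by group

end Cfg

/-- The set `K⁰ ∩ C_K(c)`; it will carry an additive group structure. -/
def J (_h : Cfg H K a b c) : Type u := {γ : G // γ ∈ K0 H K ∧ γ * c = c * γ}

namespace J

variable (h : Cfg H K a b c)

theorem memK {h : Cfg H K a b c} (γ : J h) : γ.1 ∈ K := K0_le H K γ.2.1

theorem memH {h : Cfg H K a b c} (γ : J h) : γ.1 ∈ H := h.le γ.memK

@[ext] theorem ext {h : Cfg H K a b c} {γ γ' : J h} (e : γ.1 = γ'.1) : γ = γ' := Subtype.ext e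

/-- The point `a γ`. -/
def ap (γ : J h) : Pt H := ⟨a * γ.1, H.mul_mem h.ha γ.memH, by
    rw [mul_assoc, ← mul_assoc γ.1, h.mul_a γ.memK γ.2.2, mul_assoc, inv_mul_cancel, mul_one, h.haa],
  fun e => h.ea (by
    have : a = γ.1⁻¹ := eq_inv_of_mul_eq_one_left e
    rw [this]; exact K.inv_mem γ.memK)⟩

/-- The point `b γ`. -/
def bp (γ : J h) : Pt H := ⟨b * γ.1, H.mul_mem h.hb γ.memH, by
    rw [mul_assoc, ← mul_assoc γ.1, h.mul_b γ.memK γ.2.2, mul_assoc, inv_mul_cancel, mul_one, h.hbb],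
  fun e => h.eb (by
    have : b = γ.1⁻¹ := eq_inv_of_mul_eq_one_left e
    rw [this]; exact K.inv_mem γ.memK)⟩

@[simp] theorem ap_val (γ : J h) : (ap h γ).1 = a * γ.1 := rfl

@[simp] theorem bp_val (γ : J h) : (bp h γ).1 = b * γ.1 := rfl

theorem ap_inj {γ γ' : J h} (e : ap h γ = ap h γ') : γ = γ' :=
  J.ext (mul_left_cancel (congrArg Subtype.val e))

theorem bp_inj {γ γ' : J h} (e : bp h γ = bp h γ') : γ = γ' :=
  J.ext (mul_left_cancel (congrArg Subtype.val e))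

theorem sim_b (γ : J h) : (inc H K).sim h.pb (bp h γ) :=
  ((part1_k0c G H K a b c h γ.1 γ.memK γ.2.2 h.pa h.pb (ap h γ) (bp h γ) rfl rfl rfl rfl).1).1 γ.2.1

theorem sim_a (γ : J h) : (inc H K).sim h.pa (ap h γ) :=
  ((part1_k0c G H K a b c h γ.1 γ.memK γ.2.2 h.pa h.pb (ap h γ) (bp h γ) rfl rfl rfl rfl).2).1 γ.2.1

theorem st_b (γ : J h) : (inc H K).st h.pb (bp h γ) := h.geo.sim_st (sim_b h γ)

theorem st_a (γ : J h) : (inc H K).st h.pa (ap h γ) := h.geo.sim_st (sim_a h γ)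

theorem perp_bc (γ : J h) : (inc H K).perp (bp h γ) h.pc := by
  have h1 : (bp h γ).1 * h.pc.1 = h.pc.1 * (bp h γ).1 := by
    change b * γ.1 * c = c * (b * γ.1)
    rw [mul_assoc, γ.2.2, ← mul_assoc, ← mul_assoc, h.bc, h.cb]
  refine ⟨h1, fun e => ?_⟩
  have h2 := h.geo.perp_st _ _ h.pbc
  apply h2
  have h3 := st_b h γ
  have h4 : bp h γ = h.pc := Subtype.ext e
  rwa [h4] at h3

theorem perp_ac (γ : J h) : (inc H K).perp (ap h γ) h.pc := by
  have h1 : (ap h γ).1 * h.pc.1 = h.pc.1 * (ap h γ).1 := by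
    change a * γ.1 * c = c * (a * γ.1)
    rw [mul_assoc, γ.2.2, ← mul_assoc, ← mul_assoc, h.ac, h.ca]
  refine ⟨h1, fun e => ?_⟩
  have h2 := h.geo.perp_st _ _ h.pac
  apply h2
  have h3 := st_a h γ
  have h4 : ap h γ = h.pc := Subtype.ext e
  rwa [h4] at h3

theorem cr_bc (γ : J h) : (inc H K).cr (bp h γ) h.pc = ap h γ := by
  apply Subtype.ext
  rw [h.cr_val (perp_bc h γ)]
  change b * γ.1 * c = a * γ.1
  rw [mul_assoc, γ.2.2, ← mul_assoc, h.bc]

theorem cr_ac (γ : J h) : (inc H K).cr (ap h γ) h.pc = bp h γ := by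
  apply Subtype.ext
  rw [h.cr_val (perp_ac h γ)]
  change a * γ.1 * c = b * γ.1
  rw [mul_assoc, γ.2.2, ← mul_assoc, h.ac]

/-- The element `γ` with `b γ = y`. -/
def ofb (y : Pt H) (hs : (inc H K).sim h.pb y) (hp : (inc H K).perp y h.pc) : J h :=
  ⟨b * y.1, (part1_clsa G H K a b c h h.pb y rfl).1 hs, by
    have h1 : y.1 * c = c * y.1 := hp.1
    rw [mul_assoc, h1, ← mul_assoc, ← mul_assoc, h.bc, h.cb]⟩

@[simp] theorem bp_ofb (y : Pt H) (hs : (inc H K).sim h.pb y) (hp : (inc H K).perp y h.pc) :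
    bp h (ofb h y hs hp) = y := by
  apply Subtype.ext
  change b * (b * y.1) = y.1
  rw [← mul_assoc, h.hbb, one_mul]

theorem ofb_bp (γ : J h) (hs : (inc H K).sim h.pb (bp h γ)) (hp : (inc H K).perp (bp h γ) h.pc) :
    ofb h (bp h γ) hs hp = γ := bp_inj h (bp_ofb h _ hs hp)

/-- The translations. -/
def Trl : Type u := {φ : Perm (Pt H) × Perm (Pt H) // φ ∈ (inc H K).Nn h.pa h.pb}

theorem trl_sim {φ : Perm (Pt H) × Perm (Pt H)} (hφ : φ ∈ (inc H K).Nn h.pa h.pb) {y : Pt H}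
    (hs : (inc H K).sim h.pb y) : (inc H K).sim h.pb (φ.1 y) :=
  Inc.IsGeo.sim_trans hs (part1_gens _ _ h.geo _ _ φ hφ y (h.geo.st_symm _ _ (h.geo.sim_st hs)))

theorem trl_perp {φ : Perm (Pt H) × Perm (Pt H)} (hφ : φ ∈ (inc H K).Nn h.pa h.pb) {y : Pt H}
    (hp : (inc H K).perp y h.pc) : (inc H K).perp (φ.1 y) h.pc := by
  have h1 := ((h.geo.nn_col hφ).inc _ _).1 hp
  rwa [(h.geo.nn_tt hφ).lns _ h.pac] at h1

/-- The action of the translations on `J h`. -/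
def tact (φ : Trl h) (γ : J h) : J h :=
  ofb h (φ.1.1 (bp h γ)) (trl_sim h φ.2 (sim_b h γ)) (trl_perp h φ.2 (perp_bc h γ))

theorem bp_tact (φ : Trl h) (γ : J h) : bp h (tact h φ γ) = φ.1.1 (bp h γ) := bp_ofb _ _ _ _

/-- The element `1` of `J h`, the zero of the additive group. -/
def jone : J h := ⟨1, (K0 H K).one_mem, by rw [one_mul, mul_one]⟩

@[simp] theorem bp_one : bp h (jone h) = h.pb := Subtype.ext (mul_one b)

@[simp] theorem ap_one : ap h (jone h) = h.pa := Subtype.ext (mul_one a)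

theorem tact_tr (x y : J h) : ∃ n, tact h n x = y := by
  obtain ⟨⟨φ, hφ, e1, -⟩, -⟩ := part1_line _ _ h.geo h.lemF h.pa h.pb h.pc (bp h x) h.pab h.pbc
    h.pac (sim_b h x) (perp_bc h x)
  obtain ⟨⟨ψ, hψ, e2, -⟩, -⟩ := part1_line _ _ h.geo h.lemF h.pa h.pb h.pc (bp h y) h.pab h.pbc
    h.pac (sim_b h y) (perp_bc h y)
  refine ⟨⟨ψ * φ⁻¹, Subgroup.mul_mem _ hψ (Subgroup.inv_mem _ hφ)⟩, bp_inj h ?_⟩
  rw [bp_tact]
  change ψ.1 (φ.1⁻¹ (bp h x)) = bp h y
  rw [← e1, ← e2]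
  congr 1
  exact φ.1.symm_apply_apply _

theorem tact_comm (n m : Trl h) (x : J h) : tact h n (tact h m x) = tact h m (tact h n x) := by
  apply bp_inj h
  rw [bp_tact, bp_tact, bp_tact, bp_tact]
  exact part1_ncen _ _ h.geo _ _ _ _ h.pab (h.geo.nn_tt n.2).tw m.2 _
    (h.geo.st_symm _ _ (st_b h x))

noncomputable instance : AddCommGroup (J h) := transAdd (jone h) (tact h) (tact_tr h) (tact_comm h)

theorem zero_eq : (0 : J h) = jone h := rfl

@[simp] theorem zero_val : (0 : J h).1 = 1 := rfl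

@[simp] theorem bp_zero : bp h 0 = h.pb := bp_one h

@[simp] theorem ap_zero : ap h 0 = h.pa := ap_one h

/-- Translations `φ ∈ Nn pa pb` on the points `b γ`. -/
theorem trl_b {φ : Perm (Pt H) × Perm (Pt H)} (hφ : φ ∈ (inc H K).Nn h.pa h.pb) {x : J h}
    (hx : φ.1 h.pb = bp h x) (y : J h) : φ.1 (bp h y) = bp h (x + y) := by
  have h1 : tact h ⟨φ, hφ⟩ (jone h) = x := by
    apply bp_inj h
    rw [bp_tact, bp_one, hx]
  have h2 := transAdd_act (jone h) (tact h) (tact_tr h) (tact_comm h) ⟨φ, hφ⟩ x y h1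
  have h3 : tact h ⟨φ, hφ⟩ y = x + y := h2
  rw [← h3, bp_tact]

/-- The translations `φ ∈ Nn pa pb` on the lines `a γ`. -/
theorem trl_a' {φ : Perm (Pt H) × Perm (Pt H)} (hφ : φ ∈ (inc H K).Nn h.pa h.pb) {x : J h}
    (hx : φ.1 h.pb = bp h x) (y : J h) : φ.2 (ap h y) = ap h (x + y) := by
  have hc := h.geo.nn_col hφ
  have e1 : φ.1 h.pc = h.pc := (h.geo.nn_tt hφ).pts _ h.pbc
  rw [← cr_bc h y, h.geo.col_cr hc (h.geo.perp_st _ _ (perp_bc h y)), trl_b h hφ hx, e1, cr_bc]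

/-- For every `x` there is a translation `φ ∈ Nn pa pb` with `φ b = b x` (and `φ a = a x` on
lines). -/
theorem exists_trl (x : J h) : ∃ φ ∈ (inc H K).Nn h.pa h.pb, φ.1 h.pb = bp h x ∧
    φ.2 h.pa = ap h x := by
  obtain ⟨⟨φ, hφ, e1, e2⟩, -⟩ := part1_line _ _ h.geo h.lemF h.pa h.pb h.pc (bp h x) h.pab h.pbc
    h.pac (sim_b h x) (perp_bc h x)
  exact ⟨φ, hφ, e1, by rw [e2, cr_bc]⟩

/-- Translations `φ ∈ Nn pb pa` on the points `a γ`. -/
theorem trl_a {φ : Perm (Pt H) × Perm (Pt H)} (hφ : φ ∈ (inc H K).Nn h.pb h.pa) {x : J h}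
    (hx : φ.1 h.pa = ap h x) (y : J h) : φ.1 (ap h y) = ap h (x + y) := by
  have h1 := (part1_eqv _ _ h.geo).2.1 _ _ _ hφ
  have h2 : ∃ z, φ.2 h.pb = bp h z := by
    refine ⟨ofb h (φ.2 h.pb) (trl_sim h h1 (Inc.IsGeo.sim_refl _)) (trl_perp h h1 h.pbc), ?_⟩
    rw [bp_ofb]
  obtain ⟨z, hz⟩ := h2
  have h3 := trl_a' h h1 (x := z) hz 0
  have h4 : z = x := by
    apply ap_inj h
    rw [← hx]
    have h5 : φ.1 (ap h 0) = ap h (z + 0) := h3
    rw [ap_zero, add_zero] at h5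
    exact h5.symm
  subst h4
  exact trl_a' h h1 hz y

/-- Translations `φ ∈ Nn pb pa` on the lines `b γ`. -/
theorem trl_b' {φ : Perm (Pt H) × Perm (Pt H)} (hφ : φ ∈ (inc H K).Nn h.pb h.pa) {x : J h}
    (hx : φ.1 h.pa = ap h x) (y : J h) : φ.2 (bp h y) = bp h (x + y) := by
  have h1 := (part1_eqv _ _ h.geo).2.1 _ _ _ hφ
  have h2 : ∃ z, φ.2 h.pb = bp h z := by
    refine ⟨ofb h (φ.2 h.pb) (trl_sim h h1 (Inc.IsGeo.sim_refl _)) (trl_perp h h1 h.pbc), ?_⟩
    rw [bp_ofb]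
  obtain ⟨z, hz⟩ := h2
  have h3 := trl_a' h h1 (x := z) hz 0
  have h4 : z = x := by
    apply ap_inj h
    rw [← hx]
    have h5 : φ.1 (ap h 0) = ap h (z + 0) := h3
    rw [ap_zero, add_zero] at h5
    exact h5.symm
  subst h4
  exact trl_b h h1 hz y

/-- For every `x` there is a translation `φ ∈ Nn pb pa` with `φ a = a x`. -/
theorem exists_trl' (x : J h) : ∃ φ ∈ (inc H K).Nn h.pb h.pa, φ.1 h.pa = ap h x ∧
    φ.2 h.pb = bp h x := by
  obtain ⟨φ, hφ, e1, e2⟩ := exists_trl h x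
  exact ⟨(φ.2, φ.1), (part1_eqv _ _ h.geo).2.1 _ _ _ hφ, e2, e1⟩

/-- The group inverse. -/
def jinv (γ : J h) : J h := ⟨γ.1⁻¹, (K0 H K).inv_mem γ.2.1, by
  have h1 := γ.2.2
  calc γ.1⁻¹ * c = γ.1⁻¹ * (c * γ.1) * γ.1⁻¹ := by group
    _ = γ.1⁻¹ * (γ.1 * c) * γ.1⁻¹ := by rw [h1]
    _ = c * γ.1⁻¹ := by group⟩

@[simp] theorem jinv_val (γ : J h) : (jinv h γ).1 = γ.1⁻¹ := rfl

/-- Admissible data on the triangle `a, b, c`: `w₁ = c β₁, w₂ = c β₂` on the line `b`,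
`n = c α₁, m = c α₂` through `a`. -/
theorem adm (β₁ β₂ : J h.rot.rot) (α₁ α₂ : J h.rot) :
    (inc H K).Adm h.pa h.pb (ap h.rot.rot β₁) (ap h.rot.rot β₂) (bp h.rot α₁) (bp h.rot α₂) := by
  have hg := h.geo
  have e1 : ∀ β : J h.rot.rot, (inc H K).perp h.pb (ap h.rot.rot β) := fun β =>
    hg.perp_symm _ _ (perp_ac h.rot.rot β)
  have e2 : ∀ α : J h.rot, (inc H K).perp h.pa (bp h.rot α) := fun α =>
    hg.perp_symm _ _ (perp_bc h.rot α)
  have e3 : ∀ β : J h.rot.rot, ¬ (inc H K).st (ap h.rot.rot β) h.pa := fun β e =>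
    hg.perp_st _ _ h.pca (hg.st_trans _ _ _ (st_a h.rot.rot β) e)
  have e4 : ∀ α : J h.rot, ¬ (inc H K).st (bp h.rot α) h.pb := fun α e =>
    hg.perp_st _ _ h.pcb (hg.st_trans _ _ _ (st_b h.rot α) e)
  exact ⟨h.pab, e1 _, e1 _, e2 _, e2 _, e3 _, e3 _, e4 _, e4 _⟩

/-- The f-map value defining the product. -/
theorem adm' (β : J h.rot.rot) (α : J h.rot) :
    (inc H K).Adm h.pa h.pb h.pc (ap h.rot.rot β) h.pc (bp h.rot α) := by
  have h1 := adm h 0 β 0 α
  rwa [show ap h.rot.rot 0 = h.pc from ap_zero h.rot.rot,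
    show bp h.rot 0 = h.pc from bp_zero h.rot] at h1

/-- f-maps on the line `c` move `b γ` inside its class. -/
theorem fm_sim {w₁ w₂ m : Pt H} (ha : (inc H K).Adm h.pa h.pb w₁ w₂ h.pc m) (γ : J h) :
    (inc H K).sim h.pb ((inc H K).fm w₁ w₂ h.pc m (bp h γ)) :=
  Inc.IsGeo.sim_trans (sim_b h γ) (Relation.EqvGen.rel _ _
    (h.geo.fm_R1 ha (h.geo.st_symm _ _ (st_b h γ)) (perp_bc h γ)))

theorem fm_perp {w₁ w₂ m : Pt H} (ha : (inc H K).Adm h.pa h.pb w₁ w₂ h.pc m) (γ : J h) :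
    (inc H K).perp ((inc H K).fm w₁ w₂ h.pc m (bp h γ)) h.pc := by
  obtain ⟨n, l, l', z, -⟩ := h.geo.fm_R1 ha (h.geo.st_symm _ _ (st_b h γ)) (perp_bc h γ)
  have hg := h.geo
  obtain ⟨t, ht, hs⟩ := hg.label
  have i1 := hg.perp_st _ _ ha.vx
  have i2 := hg.perp_st _ _ ha.xw₁
  have i3 := hg.perp_st _ _ ha.xw₂
  have i4 := hg.perp_st _ _ ha.vn
  have i5 := hg.perp_st _ _ ha.vm
  have i6 := ha.sw₁
  have i7 := ha.sw₂
  have i8 := ha.sn
  have i9 := ha.sm
  have i10 := st_b h γ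
  have t1 := ht h.pa; have t2 := ht h.pb; have t3 := ht w₁; have t4 := ht w₂
  have t5 := ht h.pc; have t6 := ht m
  have e1 : ¬ (inc H K).st w₁ (bp h γ) := by rw [hs] at *; omega
  have e2 : (inc H K).st m w₁ := by rw [hs] at *; omega
  have e3 := hg.pr_st e1 e2
  have e4 : ¬ (inc H K).st w₂ ((inc H K).pr w₁ m (bp h γ)) := by rw [hs] at *; omega
  have e5 : (inc H K).st h.pc w₂ := by rw [hs] at *; omega
  exact hg.pr_perp e4 e5

/-- The product `J_a × J_b → J_c`: the element `γ` with `f(c, c β⁻¹; c, c α)(b) = b γ`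
(equivalently `α β = γ β α γ`). -/
noncomputable def mulJ (α : J h.rot) (β : J h.rot.rot) : J h :=
  ofb h ((inc H K).fm h.pc (ap h.rot.rot (jinv h.rot.rot β)) h.pc (bp h.rot α) (bp h 0))
    (fm_sim h (adm' h _ _) 0) (fm_perp h (adm' h _ _) 0)

theorem bp_mulJ (α : J h.rot) (β : J h.rot.rot) : bp h (mulJ h α β) =
    (inc H K).fm h.pc (ap h.rot.rot (jinv h.rot.rot β)) h.pc (bp h.rot α) h.pb := by
  unfold mulJ
  rw [bp_ofb, bp_zero]

end J

/-- NEG: `-γ = γ⁻¹`, no 2-torsion. -/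
def NegS : Prop := ∀ (G : Type u) [Group G] (H K : Subgroup G) (a b c : G) (h : Cfg H K a b c),
  (∀ γ : J h, (-γ).1 = γ.1⁻¹) ∧ (∀ γ : J h, γ + γ = 0 → γ = 0)

/-- MULF: the product and the group structure. -/
def MulfS : Prop := ∀ (G : Type u) [Group G] (H K : Subgroup G) (a b c : G) (h : Cfg H K a b c)
  (α : J h.rot) (β : J h.rot.rot),
  α.1 * β.1 = (J.mulJ h α β).1 * β.1 * α.1 * (J.mulJ h α β).1 ∧
  (∀ γ ∈ K, γ * c = c * γ → α.1 * β.1 = γ * β.1 * α.1 * γ → γ = (J.mulJ h α β).1) ∧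
  (J.mulJ h α β = 0 ↔ α.1 * β.1 = β.1 * α.1)

/-- MULA: additivity in the first variable. -/
def MulaS : Prop := ∀ (G : Type u) [Group G] (H K : Subgroup G) (a b c : G) (h : Cfg H K a b c)
  (α α' : J h.rot) (β : J h.rot.rot), J.mulJ h (α + α') β = J.mulJ h α β + J.mulJ h α' β

/-- MULB: additivity in the second variable. -/
def MulbS : Prop := ∀ (G : Type u) [Group G] (H K : Subgroup G) (a b c : G) (h : Cfg H K a b c)
  (α : J h.rot) (β β' : J h.rot.rot), J.mulJ h α (β + β') = J.mulJ h α β + J.mulJ h α β'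

end Pool.Agent.FourGp
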