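import Pool.Agent.Lib.MP_fb3619_al.Part2

/-!
# Part 2: products, coordinates, the system `tri h`
-/

universe u

namespace Pool.Agent.FourGp

open Equiv

variable {G : Type u} [Group G] {H K : Subgroup G} {a b c : G}

/-- The product as a biadditive map. -/
noncomputable def mulH (h : Cfg H K a b c) : J h.rot →+ J h.rot.rot →+ J h :=
  AddMonoidHom.mk' (fun α => AddMonoidHom.mk' (fun β => J.mulJ h α β)
    (fun β β' => part2_mulb G H K a b c h α β β'))
    (fun α α' => AddMonoidHom.ext fun β => part2_mula G H K a b c h α α' β)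

@[simp] theorem mulH_apply (h : Cfg H K a b c) (α : J h.rot) (β : J h.rot.rot) :
    mulH h α β = J.mulJ h α β := rfl

/-- The system `(J_a, J_b, J_c)` with its products. -/
noncomputable def tri (h : Cfg H K a b c) : Tri (J h.rot) (J h.rot.rot) (J h) where
  xy := mulH h
  yz := mulH h.rot
  zx := mulH h.rot.rot

theorem tri_rot (h : Cfg H K a b c) : (tri h).rot = tri h.rot := rfl

/-- Coordinates of the points of type `a`: `z ⟂ b γ` and `z ⟂ c β`. For `h.rot` this is the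
statement for the type `b`: `IsC h.rot y α γ : y ⟂ c α, y ⟂ a γ`; for `h.rot.rot`:
`IsC h.rot.rot l β α : l ⟂ a β, l ⟂ b α`. -/
structure IsC (h : Cfg H K a b c) (z : Pt H) (γ : J h) (β : J h.rot.rot) : Prop where
  s : (inc H K).st h.pa z
  p : (inc H K).perp z (J.bp h γ)
  q : (inc H K).perp z (J.ap h.rot.rot β)

/-- Conjugation by an element of `J h` (any `h` with the given `H, K`). -/
def cjJ (h : Cfg H K a b c) (γ : J h) : Perm (Pt H) := cj H ⟨γ.1, γ.memH⟩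

theorem cjJ_val (h : Cfg H K a b c) (γ : J h) (x : Pt H) : (cjJ h γ x).1 = γ.1⁻¹ * x.1 * γ.1 := rfl

/-- The first derived configuration: `K₁ = K⁰`, `H₁ = K₁ V`; and so on. -/
def H1 (H K : Subgroup G) (a b c : G) : Subgroup G := HV (K0 H K) a b c

/-- `K₂ = K0 H₁ K₁`. -/
def K2 (H K : Subgroup G) (a b c : G) : Subgroup G := K0 (H1 H K a b c) (K0 H K)

/-- `H₂ = K₂ V`. -/
def H2 (H K : Subgroup G) (a b c : G) : Subgroup G := HV (K2 H K a b c) a b c

/-- `K₃ = K0 H₂ K₂`. -/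
def K3 (H K : Subgroup G) (a b c : G) : Subgroup G := K0 (H2 H K a b c) (K2 H K a b c)

theorem HV_rot (N : Subgroup G) (a b c : G) : HV N b c a = HV N a b c := by
  unfold HV
  congr 2
  ext x
  simp only [Set.mem_insert_iff, Set.mem_singleton_iff]
  tauto

theorem H1_rot (H K : Subgroup G) (a b c : G) : H1 H K b c a = H1 H K a b c := HV_rot _ _ _ _

theorem K2_rot (H K : Subgroup G) (a b c : G) : K2 H K b c a = K2 H K a b c := by
  unfold K2; rw [H1_rot]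

theorem H2_rot (H K : Subgroup G) (a b c : G) : H2 H K b c a = H2 H K a b c := by
  unfold H2; rw [HV_rot, K2_rot]

theorem K3_rot (H K : Subgroup G) (a b c : G) : K3 H K b c a = K3 H K a b c := by
  unfold K3; rw [H2_rot, K2_rot]

/-- Rotation of the ring data. -/
def RD.rot {X Y Z : Type u} [AddCommGroup X] [AddCommGroup Y] [AddCommGroup Z] {T : Tri X Y Z}
    {R : Type u} [CommRing R] (D : RD T R) : RD T.rot R where
  R0 := D.R0
  jx := D.jy
  jy := D.jz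
  jz := D.jx
  jxi := D.jyi
  jyi := D.jzi
  jzi := D.jxi
  xy := D.yz
  yz := D.zx
  zx := D.xy
  xx := D.yy
  yy := D.zz
  zz := D.xx
  rx := D.ry
  ry := D.rz
  rz := D.rx
  ux := D.uy
  uy := D.uz
  uz := D.ux
  nt := D.nt

/-- COOR: coordinates. -/
def CoorS : Prop := ∀ (G : Type u) [Group G] (H K : Subgroup G) (a b c : G) (h : Cfg H K a b c),
  (∀ z, (inc H K).sim h.pa z → ∃ γ β, IsC h z γ β) ∧
  (∀ γ β, ∃ z, IsC h z γ β) ∧
  (∀ z γ β, IsC h z γ β → (inc H K).sim h.pa z) ∧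
  (∀ z γ β γ' β', IsC h z γ β → IsC h z γ' β' → γ = γ' ∧ β = β') ∧
  (∀ z z' γ β, IsC h z γ β → IsC h z' γ β → z = z') ∧
  (∀ γ, IsC h (J.ap h γ) γ 0) ∧ (∀ β, IsC h (J.bp h.rot.rot β) 0 β)

/-- TRAN: translations in coordinates. -/
def TranS : Prop := ∀ (G : Type u) [Group G] (H K : Subgroup G) (a b c : G) (h : Cfg H K a b c),
  (∀ φ ∈ (inc H K).Nn h.pc h.pa, ∀ x : J h.rot.rot, φ.1 h.pa = J.bp h.rot.rot x →
    (∀ z γ β, IsC h z γ β → IsC h (φ.1 z) γ (x + β)) ∧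
    (∀ l β α, IsC h.rot.rot l β α → IsC h.rot.rot (φ.2 l) (x + β) α)) ∧
  (∀ φ ∈ (inc H K).Nn h.pb h.pa, ∀ x : J h, φ.1 h.pa = J.ap h x →
    ∀ z γ β, IsC h z γ β → IsC h (φ.1 z) (x + γ) β)

/-- INC: incidence in coordinates. -/
def IncS : Prop := ∀ (G : Type u) [Group G] (H K : Subgroup G) (a b c : G) (h : Cfg H K a b c)
  (z l : Pt H) (γ : J h) (β β' : J h.rot.rot) (α' : J h.rot), IsC h z γ β →
  IsC h.rot.rot l β' α' → ((inc H K).perp z l ↔ β = β' + mulH h.rot.rot γ α')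

/-- ROTA: conjugation by `α ∈ J_a` is additive on the coordinates of the points of type `a`. -/
def RotaS : Prop := ∀ (G : Type u) [Group G] (H K : Subgroup G) (a b c : G) (h : Cfg H K a b c)
  (α : J h.rot), ∃ R : AddMonoid.End (J h × J h.rot.rot),
  ∀ z γ β, IsC h z γ β → IsC h (cjJ h.rot α z) (R (γ, β)).1 (R (γ, β)).2

/-- ROTX: `x (x' y) = x' (x y)`, `1 + s²` is bijective, Cayley formula for the rotations. -/
def RotxS : Prop := ∀ (G : Type u) [Group G] (H K : Subgroup G) (a b c : G) (h : Cfg H K a b c),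
  (∀ (s s' : J h.rot) (β : J h.rot.rot),
    mulH h.rot.rot (mulH h s' β) s = mulH h.rot.rot (mulH h s β) s') ∧
  (∀ (s s' : J h.rot) (γ : J h),
    mulH h s (mulH h.rot.rot γ s') = mulH h s' (mulH h.rot.rot γ s)) ∧
  (∀ s : J h.rot, (tri h).UniX s) ∧
  (∀ (t : J h.rot) z γ β γ' β', IsC h z γ β → IsC h (cjJ h.rot t z) γ' β' →
    γ' + mulH h t β' = γ - mulH h t β ∧
    β' - mulH h.rot.rot γ' t = β + mulH h.rot.rot γ t)

/-- FACT: `K = B A C`. -/
def FactS : Prop := ∀ (G : Type u) [Group G] (H K : Subgroup G) (a b c : G), Cfg H K a b c →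
  ∀ k ∈ K, ∃ β ∈ K, ∃ α ∈ K, ∃ γ ∈ K, β * b = b * β ∧ α * a = a * α ∧ γ * c = c * γ ∧
    k = β * α * γ

/-- MODM: the next derived group has coordinates in the products. -/
def ModmS : Prop := ∀ (G : Type u) [Group G] (H K H' K' : Subgroup G) (a b c : G)
  (h : Cfg H K a b c), Cfg H' K' a b c → K' ≤ K0 H K → H' ≤ H →
  ∀ α : J h.rot, α.1 ∈ K0 H' K' → α ∈ AddSubgroup.closure
    {u : J h.rot | ∃ (β : J h.rot.rot) (γ : J h), β.1 ∈ K' ∧ γ.1 ∈ K' ∧ u = mulH h.rot β γ}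

/-- CHAIN: the derived configurations. -/
def ChainS : Prop := ∀ (G : Type u) [Group G] (H K : Subgroup G) (a b c : G), Cfg H K a b c →
  K.FG → Cfg (H1 H K a b c) (K0 H K) a b c ∧ Cfg (H2 H K a b c) (K2 H K a b c) a b c ∧
  H1 H K a b c ≤ H ∧ H2 H K a b c ≤ H1 H K a b c ∧ K2 H K a b c ≤ K0 H K ∧
  K3 H K a b c ≤ K2 H K a b c ∧ (K2 H K a b c).FG ∧ (K2 H K a b c).relIndex K ≠ 0 ∧
  (K3 H K a b c).relIndex K ≠ 0 ∧
  (∀ k ∈ K3 H K a b c, ∃ β ∈ K3 H K a b c, ∃ α ∈ K3 H K a b c, ∃ γ ∈ K3 H K a b c,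
    β * b = b * β ∧ α * a = a * α ∧ γ * c = c * γ ∧ k = β * α * γ)

/-- SAH: the strong annihilator condition, and `K₂`-elements are in the `M`s. -/
def SahS : Prop := ∀ (G : Type u) [Group G] (H K : Subgroup G) (a b c : G) (h : Cfg H K a b c),
  JC H K → (∀ x : J h.rot, (∀ y ∈ (tri h).MY, (tri h).xy x y = 0) → x = 0) ∧
  (∀ x : J h.rot, (∀ z ∈ (tri h).MZ, (tri h).zx z x = 0) → x = 0) ∧
  (∀ x : J h.rot, x.1 ∈ K2 H K a b c → x ∈ (tri h).MX)

/-- The coordinate vector of a point over the ring `R`. -/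
def IsV (h : Cfg H K a b c) {R : Type u} [CommRing R] (D : RD (tri h) R) (x : Pt H)
    (v : Fin 3 → R) : Prop :=
  (∃ (γ : (tri h).MZ) (β : (tri h).MY), IsC h x γ.1 β.1 ∧ v = ![1, -D.jz γ, D.jy β]) ∨
  (∃ (α : (tri h).MX) (γ : (tri h).MZ), IsC h.rot x α.1 γ.1 ∧ v = ![D.jz γ, 1, -D.jx α]) ∨
  (∃ (β : (tri h).MY) (α : (tri h).MX), IsC h.rot.rot x β.1 α.1 ∧ v = ![-D.jy β, D.jx α, 1])

/-- Rotation of the coordinate vectors. -/
theorem isV_rot (h : Cfg H K a b c) {R : Type u} [CommRing R] (D : RD (tri h) R) (x : Pt H)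
    (v : Fin 3 → R) (hv : IsV h D x v) :
    IsV h.rot (D.rot : RD (tri h.rot) R) x ![v 1, v 2, v 0] := by
  rcases hv with ⟨γ, β, h1, rfl⟩ | ⟨α, γ, h1, rfl⟩ | ⟨β, α, h1, rfl⟩
  · exact Or.inr (Or.inr ⟨γ, β, h1, rfl⟩)
  · exact Or.inl ⟨α, γ, h1, rfl⟩
  · exact Or.inr (Or.inl ⟨β, α, h1, rfl⟩)

/-- VECX: the points of `H₂` have coordinate vectors. -/
def VecxS : Prop := ∀ (G : Type u) [Group G] (H K : Subgroup G) (a b c : G) (h : Cfg H K a b c),
  JC H K → ∀ (R : Type u) [CommRing R] (D : RD (tri h) R) (x : Pt H), x.1 ∈ H2 H K a b c →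
  ∃ v, IsV h D x v

/-- ACTA: the rotation matrix of `t ∈ M_a` acts on the coordinate vectors as conjugation. -/
def ActaS : Prop := ∀ (G : Type u) [Group G] (H K : Subgroup G) (a b c : G) (h : Cfg H K a b c),
  (tri h).Good → ∀ (R : Type u) [CommRing R] (D : RD (tri h) R) (t : (tri h).MX) (w : R),
  w ∈ D.R0 → w * (1 + D.jx t * D.jx t) = 1 → ∀ (x : Pt H) (v v' : Fin 3 → R), IsV h D x v →
  IsV h D (cjJ h.rot t.1 x) v' →
  ∃ e : Rˣ, (rotA ((1 - D.jx t * D.jx t) * w) (2 * D.jx t * w)).mulVec v = (e : R) • v'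

/-- FINK: contradiction. -/
def FinkS : Prop := ∀ (G : Type u) [Group G] (H K : Subgroup G) (a b c : G), Cfg H K a b c →
  JC H K → False

/-- MAIN. -/
def MainS : Prop := ∀ (K : Type u) [Group K] (σ τ : K ≃* K), FixP K σ τ →
  ∀ S : Subgroup K, S.FG → Finite S

end Pool.Agent.FourGp
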