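import Pool.Agent.Lib.MP_fb3619_al.Iface
import Pool.Agent.Lib.MP_fb3619_al.H12.Hmap
import Pool.Agent.Lib.MP_fb3619_al.H12.Tau
import Pool.Agent.Lib.MP_fb3619_al.H16.Nsam
import Pool.Agent.Lib.MP_fb3619_al.H21.Eqv
import Pool.Agent.Lib.MP_fb3619_al.H21.Proj
import Pool.Agent.Lib.MP_fb3619_al.H28.K0fi
import Pool.Agent.Lib.MP_fb3619_al.H4.Btri
import Pool.Agent.Lib.MP_fb3619_al.H4.Tring
import Pool.Agent.Lib.MP_fb3619_al.H45.Geom
import Pool.Agent.Lib.MP_fb3619_al.H45.Invt
import Pool.Agent.Lib.MP_fb3619_al.H45.Reba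
import Pool.Agent.Lib.MP_fb3619_al.H45.Semi
import Pool.Agent.Lib.MP_fb3619_al.H57.Bilb
import Pool.Agent.Lib.MP_fb3619_al.H57.Cld
import Pool.Agent.Lib.MP_fb3619_al.H57.Det
import Pool.Agent.Lib.MP_fb3619_al.H57.Lemf
import Pool.Agent.Lib.MP_fb3619_al.H57.Locf
import Pool.Agent.Lib.MP_fb3619_al.H57.Ncen
import Pool.Agent.Lib.MP_fb3619_al.H57.Tcrs
import Pool.Agent.Lib.MP_fb3619_al.H57.Zorn
import Pool.Agent.Lib.MP_fb3619_al.H59.Cent
import Pool.Agent.Lib.MP_fb3619_al.H59.Roti
import Pool.Agent.Lib.MP_fb3619_al.H65.Lin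
import Pool.Agent.Lib.MP_fb3619_al.H65.Lina
import Pool.Agent.Lib.MP_fb3619_al.H70.Ncom
import Pool.Agent.Lib.MP_fb3619_al.H70.Rep
import Pool.Agent.Lib.MP_fb3619_al.H74.Tform
import Pool.Agent.Lib.MP_fb3619_al.H78.Quof
import Pool.Agent.Lib.MP_fb3619_al.H75.Bila
import Pool.Agent.Lib.MP_fb3619_al.H9.Ops
import Pool.Agent.Lib.MP_fb3619_al.H9.Tax
import Pool.Agent.Lib.MP_fb3619_al.H9.Tcen
import Pool.Agent.Lib.MP_fb3619_al.H9.Tgr
import Pool.Agent.Lib.MP_fb3619_al.H91.Clsa
import Pool.Agent.Lib.MP_fb3619_al.H91.Kcls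
import Pool.Agent.Lib.MP_fb3619_al.H91.Sq
import Pool.Agent.Lib.MP_fb3619_al.H94.Simn
import Pool.Agent.Lib.MP_fb3619_al.H95.Gens
import Pool.Agent.Lib.MP_fb3619_al.H95.Line
import Pool.Agent.Lib.MP_fb3619_al.H95.Reg
import Pool.Agent.Lib.MP_fb3619_al.H95.Step
import Pool.Agent.Lib.MP_fb3619_al.H95.Subc

/-! Results of part 1: assembly of the modules. -/

universe u

namespace Pool.Agent.FourGp

theorem part1_det : DetS.{u} := H57.det
theorem part1_ncen : NcenS.{u} := H57.ncen part1_det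
theorem part1_tcrs : TcrsS.{u} := H57.tcrs
theorem part1_nsam : NsamS.{u} := H16.nsam part1_ncen part1_tcrs
theorem part1_ncom : NcomS.{u} := H70.ncom part1_tcrs part1_nsam
theorem part1_step : StepS.{u} := H95.step
theorem part1_gens : GensS.{u} := H95.gens
theorem part1_simn : SimnS.{u} := H94.simn part1_tcrs part1_step
theorem part1_eqv : EqvS.{u} := H21.eqv
theorem part1_proj : ProjS.{u} := H21.proj part1_simn part1_gens
theorem part1_line : LineS.{u} := H95.line part1_simn part1_gens part1_eqv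
theorem part1_reg : RegS.{u} := H95.reg part1_ncom part1_step
theorem part1_cld : CldS.{u} := H57.cld part1_proj
theorem part1_bila : BilaS.{u} := H75.bila
theorem part1_bilb : BilbS.{u} := H57.bilb part1_det part1_tcrs
theorem part1_invt : InvtS.{u} := H45.invt
theorem part1_reba : RebaS.{u} := H45.reba part1_invt
theorem part1_geom : GeomS.{u} := H45.geom part1_reba
theorem part1_deco : DecoS.{u} := H91.deco
theorem part1_hmap : HmapS.{u} := H12.hmap part1_invt part1_reba part1_geom part1_deco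
theorem part1_tau : TauS.{u} := H12.tau part1_invt part1_reba part1_geom part1_hmap
theorem part1_lemf : LemfS.{u} := H57.lemf part1_geom part1_tau
theorem part1_cjc : CjcS.{u} := H91.cjc
theorem part1_btri : BtriS.{u} :=
  H4.btri part1_invt part1_reba part1_geom part1_lemf part1_cjc part1_proj
theorem part1_kcls : KclsS.{u} :=
  H91.kcls part1_reba part1_geom part1_deco part1_cjc part1_eqv part1_btri
theorem part1_k0c : K0cS.{u} :=
  H91.k0c part1_reba part1_geom part1_lemf part1_line part1_btri part1_kcls part1_invt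
theorem part1_clsa : ClsaS.{u} :=
  H91.clsa part1_geom part1_lemf part1_proj part1_kcls part1_k0c part1_invt
theorem part1_subc : SubcS.{u} := H95.subc
theorem part1_ops : OpsS.{u} := H9.ops
theorem part1_opsb : OpsbS.{u} := H9.opsb
theorem part1_tring : TringS.{u} := H4.tring H74.tform H9.tcen H9.tuni (H9.tax H9.tcen) H9.tgr
theorem part1_rep : RepS.{u} := H70.rep H59.roti (H65.lin H65.lina)
theorem part1_locf : LocfS.{u} := H57.locf
theorem part1_quof : QuofS.{u} := H78.quof
theorem part1_zorn : ZornS.{u} := H57.zorn part1_quof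
theorem part1_semi : SemiS.{u} := H45.semi
theorem part1_cent : CentS.{u} := H59.cent
theorem part1_k0fi : K0fiS.{u} := H28.k0fi part1_kcls

end Pool.Agent.FourGp
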