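import Pool.Agent.Lib.MP_fb3619_al.Base

/-! Basic lemmas about abstract geometries: perspectivities, collineations. -/

universe u

namespace Pool.Agent.FourGp

open Equiv

namespace Inc.IsGeo

variable {P : Type u} {g : Inc P} (h : g.IsGeo)

include h

theorem st_comm {x y : P} : g.st x y ↔ g.st y x := ⟨h.st_symm _ _, h.st_symm _ _⟩

theorem perp_comm {x y : P} : g.perp x y ↔ g.perp y x := ⟨h.perp_symm _ _, h.perp_symm _ _⟩

/-- `cr x y` is not of the type of `x`. -/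
theorem cr_st_l {x y : P} (hxy : ¬ g.st x y) : ¬ g.st (g.cr x y) x :=
  fun e => h.perp_st _ _ (h.cr_l x y hxy) (h.st_symm _ _ e)

theorem cr_st_r {x y : P} (hxy : ¬ g.st x y) : ¬ g.st (g.cr x y) y :=
  fun e => h.perp_st _ _ (h.cr_r x y hxy) (h.st_symm _ _ e)

/-- If `x ⟂ y`, then `x` is the common perpendicular of `y` and `cr x y`. -/
theorem cr_cr_self {x y : P} (hxy : ¬ g.st x y) (hp : g.perp x y) : g.cr y (g.cr x y) = x := by
  refine (h.uniq y (g.cr x y) x ?_ (h.perp_symm _ _ hp) (h.perp_symm _ _ (h.cr_l _ _ hxy))).symm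
  exact fun e => h.cr_st_r hxy (h.st_symm _ _ e)

section pr

variable {w m n y : P}

theorem pr_line (hw : ¬ g.st w y) (hm : g.st m w) : ¬ g.st (g.cr y w) m := by
  intro e
  exact h.cr_st_r (fun e' => hw (h.st_symm _ _ e')) (h.st_trans _ _ _ e hm)

theorem pr_perp (hw : ¬ g.st w y) (hm : g.st m w) : g.perp (g.pr w m y) m :=
  h.perp_symm _ _ (h.cr_r _ _ (h.pr_line hw hm))

theorem pr_perp_line (hw : ¬ g.st w y) (hm : g.st m w) : g.perp (g.pr w m y) (g.cr y w) :=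
  h.perp_symm _ _ (h.cr_l _ _ (h.pr_line hw hm))

theorem pr_st (hw : ¬ g.st w y) (hm : g.st m w) : g.st (g.pr w m y) y := by
  obtain ⟨t, ht, hs⟩ := h.label
  have h1 := h.cr_st_r (fun e => hw (h.st_symm _ _ e))
  have h2 := h.cr_st_l (fun e => hw (h.st_symm _ _ e))
  have h3 := h.cr_st_l (h.pr_line hw hm)
  have h4 := h.cr_st_r (h.pr_line hw hm)
  change g.st (g.cr (g.cr y w) m) y
  rw [hs] at *
  have := ht (g.cr y w); have := ht (g.cr (g.cr y w) m); have := ht y; have := ht w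
  omega

theorem cr_pr (hw : ¬ g.st w y) (hm : g.st m w) : g.cr (g.pr w m y) w = g.cr y w := by
  have hs := h.pr_st hw hm
  refine (h.uniq _ _ _ ?_ (h.pr_perp_line hw hm) (h.cr_r _ _ fun e => hw (h.st_symm _ _ e))).symm
  exact fun e => hw (h.st_symm _ _ (h.st_trans _ _ _ (h.st_symm _ _ hs) e))

theorem pr_pr (hw : ¬ g.st w y) (hm : g.st m w) : g.pr w n (g.pr w m y) = g.pr w n y := by
  unfold Inc.pr
  have := h.cr_pr hw hm
  unfold Inc.pr at this
  rw [this]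

theorem pr_self (hw : ¬ g.st w y) (hm : g.st m w) (hy : g.perp y m) : g.pr w m y = y := by
  refine (h.uniq _ _ _ (h.pr_line hw hm) (h.perp_symm _ _ (h.cr_l _ _ ?_))
    (h.perp_symm _ _ hy)).symm
  exact fun e => hw (h.st_symm _ _ e)

end pr

section col

variable {φ ψ : Perm P × Perm P}

omit h in
theorem _root_.Pool.Agent.FourGp.Inc.Col.perp_iff (hφ : g.Col φ) {x y : P} :
    g.perp (φ.1 x) (φ.2 y) ↔ g.perp x y := (hφ.inc x y).symm

theorem col_st (hφ : g.Col φ) {x y : P} : g.st (φ.1 x) (φ.1 y) ↔ g.st x y := by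
  have a := hφ.tp x
  have b := hφ.tp y
  constructor
  · intro e
    exact h.st_trans _ _ _ (h.st_trans _ _ _ a e) (h.st_symm _ _ b)
  · intro e
    exact h.st_trans _ _ _ (h.st_trans _ _ _ (h.st_symm _ _ a) e) b

theorem col_st' (hφ : g.Col φ) {x y : P} : g.st (φ.2 x) (φ.2 y) ↔ g.st x y := by
  have a := hφ.tl x
  have b := hφ.tl y
  constructor
  · intro e
    exact h.st_trans _ _ _ (h.st_trans _ _ _ a e) (h.st_symm _ _ b)
  · intro e
    exact h.st_trans _ _ _ (h.st_trans _ _ _ (h.st_symm _ _ a) e) b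

/-- Collineations respect joining lines. -/
theorem col_cr (hφ : g.Col φ) {x y : P} (hxy : ¬ g.st x y) :
    φ.2 (g.cr x y) = g.cr (φ.1 x) (φ.1 y) := by
  refine h.uniq _ _ _ (fun e => hxy ((h.col_st hφ).1 e)) ?_ ?_
  · exact (hφ.inc _ _).1 (h.cr_l _ _ hxy)
  · exact (hφ.inc _ _).1 (h.cr_r _ _ hxy)

/-- Collineations respect intersection points. -/
theorem col_cr' (hφ : g.Col φ) {x y : P} (hxy : ¬ g.st x y) :
    φ.1 (g.cr x y) = g.cr (φ.2 x) (φ.2 y) := by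
  refine h.uniq _ _ _ (fun e => hxy ((h.col_st' hφ).1 e)) ?_ ?_
  · exact h.perp_symm _ _ ((hφ.inc _ _).1 (h.perp_symm _ _ (h.cr_l _ _ hxy)))
  · exact h.perp_symm _ _ ((hφ.inc _ _).1 (h.perp_symm _ _ (h.cr_r _ _ hxy)))

theorem col_pr (hφ : g.Col φ) {w m y : P} (hw : ¬ g.st w y) (hm : g.st m w) :
    φ.1 (g.pr w m y) = g.pr (φ.1 w) (φ.2 m) (φ.1 y) := by
  unfold Inc.pr
  rw [h.col_cr' hφ (h.pr_line hw hm), h.col_cr hφ fun e => hw (h.st_symm _ _ e)]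

theorem col_one : g.Col 1 :=
  ⟨fun x => h.st_refl x, fun x => h.st_refl x, fun _ _ => Iff.rfl⟩

theorem col_mul (hφ : g.Col φ) (hψ : g.Col ψ) : g.Col (φ * ψ) :=
  ⟨fun x => h.st_trans _ _ _ (hψ.tp x) (hφ.tp _), fun x => h.st_trans _ _ _ (hψ.tl x) (hφ.tl _),
    fun x y => (hψ.inc x y).trans (hφ.inc _ _)⟩

theorem col_inv (hφ : g.Col φ) : g.Col φ⁻¹ := by
  refine ⟨fun x => ?_, fun x => ?_, fun x y => ?_⟩
  · have := hφ.tp (φ.1⁻¹ x)
    rw [show φ.1 (φ.1⁻¹ x) = x from φ.1.apply_symm_apply x] at this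
    exact h.st_symm _ _ this
  · have := hφ.tl (φ.2⁻¹ x)
    rw [show φ.2 (φ.2⁻¹ x) = x from φ.2.apply_symm_apply x] at this
    exact h.st_symm _ _ this
  · have := hφ.inc (φ.1⁻¹ x) (φ.2⁻¹ y)
    rw [show φ.1 (φ.1⁻¹ x) = x from φ.1.apply_symm_apply x,
      show φ.2 (φ.2⁻¹ y) = y from φ.2.apply_symm_apply y] at this
    exact this.symm

theorem tw_one {v x : P} : g.TW v x 1 := ⟨h.col_one, fun _ _ => rfl, fun _ _ _ => rfl⟩

theorem tw_mul {v x : P} (hφ : g.TW v x φ) (hψ : g.TW v x ψ) : g.TW v x (φ * ψ) := by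
  refine ⟨h.col_mul hφ.toCol hψ.toCol, fun y hy => ?_, fun l hl hs => ?_⟩
  · change φ.1 (ψ.1 y) = y
    rw [hψ.pts y hy, hφ.pts y hy]
  · change φ.2 (ψ.2 l) = l
    rw [hψ.lns l hl hs, hφ.lns l hl hs]

theorem tw_inv {v x : P} (hφ : g.TW v x φ) : g.TW v x φ⁻¹ := by
  refine ⟨h.col_inv hφ.toCol, fun y hy => ?_, fun l hl hs => ?_⟩
  · change φ.1⁻¹ y = y
    rw [Perm.inv_eq_iff_eq, hφ.pts y hy]
  · change φ.2⁻¹ l = l
    rw [Perm.inv_eq_iff_eq, hφ.lns l hl hs]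

theorem tt_one {v x : P} : g.TT v x 1 := ⟨h.col_one, fun _ _ => rfl, fun _ _ => rfl⟩

theorem tt_mul {v x : P} (hφ : g.TT v x φ) (hψ : g.TT v x ψ) : g.TT v x (φ * ψ) := by
  refine ⟨h.col_mul hφ.toCol hψ.toCol, fun y hy => ?_, fun l hl => ?_⟩
  · change φ.1 (ψ.1 y) = y
    rw [hψ.pts y hy, hφ.pts y hy]
  · change φ.2 (ψ.2 l) = l
    rw [hψ.lns l hl, hφ.lns l hl]

theorem tt_inv {v x : P} (hφ : g.TT v x φ) : g.TT v x φ⁻¹ := by
  refine ⟨h.col_inv hφ.toCol, fun y hy => ?_, fun l hl => ?_⟩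
  · change φ.1⁻¹ y = y
    rw [Perm.inv_eq_iff_eq, hφ.pts y hy]
  · change φ.2⁻¹ l = l
    rw [Perm.inv_eq_iff_eq, hφ.lns l hl]

omit h in
theorem _root_.Pool.Agent.FourGp.Inc.TT.tw {v x : P} (hφ : g.TT v x φ) : g.TW v x φ :=
  ⟨hφ.toCol, hφ.pts, fun l hl _ => hφ.lns l hl⟩

/-- The elements of `Nn v x` have axis `x` and centre `v`. -/
theorem nn_tt {v x : P} (hφ : φ ∈ g.Nn v x) : g.TT v x φ := by
  refine Subgroup.closure_induction (p := fun φ _ => g.TT v x φ) ?_ h.tt_one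
    (fun _ _ _ _ a b => h.tt_mul a b) (fun _ _ a => h.tt_inv a) hφ
  rintro φ ⟨w₁, w₂, n, m, hi⟩
  exact hi.2.1

theorem nn_col {v x : P} (hφ : φ ∈ g.Nn v x) : g.Col φ := (h.nn_tt hφ).toCol

/-- The elements of `NN x` fix all points on the line `x`. -/
theorem NN_col {x : P} (hφ : φ ∈ g.NN x) : g.Col φ ∧ ∀ y, g.perp x y → φ.1 y = y := by
  refine Subgroup.closure_induction (p := fun φ _ => g.Col φ ∧ ∀ y, g.perp x y → φ.1 y = y)
    ?_ ⟨h.col_one, fun _ _ => rfl⟩ ?_ ?_ hφ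
  · rintro φ ⟨v, hv⟩
    exact ⟨h.nn_col hv, (h.nn_tt hv).pts⟩
  · rintro φ ψ _ _ ⟨a, a'⟩ ⟨b, b'⟩
    refine ⟨h.col_mul a b, fun y hy => ?_⟩
    change φ.1 (ψ.1 y) = y
    rw [b' y hy, a' y hy]
  · rintro φ _ ⟨a, a'⟩
    refine ⟨h.col_inv a, fun y hy => ?_⟩
    change φ.1⁻¹ y = y
    rw [Perm.inv_eq_iff_eq, a' y hy]

/-- Weak elements commute with the perspectivities with centre on the axis and lines through the
centre. -/
theorem tw_pr {v x w m y : P} (hφ : g.TW v x φ) (hvx : g.perp v x) (hw : g.perp x w)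
    (hwv : ¬ g.st w v) (hm : g.perp v m) (hmx : ¬ g.st m x) (hy : g.st y x) :
    φ.1 (g.pr w m y) = g.pr w m (φ.1 y) := by
  obtain ⟨t, ht, hs⟩ := h.label
  have h1 := h.perp_st _ _ hvx
  have h2 := h.perp_st _ _ hw
  have h3 := h.perp_st _ _ hm
  have e : ¬ g.st w y := by
    rw [hs] at *; omega
  have e' : g.st m w := by
    rw [hs] at *
    have := ht m; have := ht w; have := ht v; have := ht x
    omega
  rw [h.col_pr hφ.toCol e e', hφ.pts w hw, hφ.lns m hm hmx]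

/-- f-maps are elementary steps. -/
theorem fm_R1 {v x w₁ w₂ n m y : P} (ha : g.Adm v x w₁ w₂ n m) (hy : g.st y x) (hn : g.perp y n) :
    g.R1 y (g.fm w₁ w₂ n m y) := by
  obtain ⟨t, ht, hs⟩ := h.label
  have i1 := h.perp_st _ _ ha.vx
  have i2 := h.perp_st _ _ ha.xw₁
  have i3 := h.perp_st _ _ ha.xw₂
  have i4 := h.perp_st _ _ ha.vn
  have i5 := h.perp_st _ _ ha.vm
  have i6 := ha.sw₁
  have i7 := ha.sw₂
  have i8 := ha.sn
  have i9 := ha.sm
  have t1 := ht v; have t2 := ht x; have t3 := ht w₁; have t4 := ht w₂; have t5 := ht n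
  have t6 := ht m
  have e1 : ¬ g.st w₁ y := by rw [hs] at *; omega
  have e2 : g.st m w₁ := by rw [hs] at *; omega
  have e3 := h.pr_st e1 e2
  have e4 : ¬ g.st w₂ (g.pr w₁ m y) := by rw [hs] at *; omega
  have e5 : g.st n w₂ := by rw [hs] at *; omega
  have e6 : ¬ g.st y w₁ := fun e => e1 (h.st_symm _ _ e)
  have e7 : ¬ g.st (g.pr w₁ m y) w₂ := fun e => e4 (h.st_symm _ _ e)
  have c1 := h.cr_st_l e6
  have c2 := h.cr_st_r e6
  have c3 := h.cr_st_l e7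
  have c4 := h.cr_st_r e7
  have t7 := ht (g.cr y w₁); have t8 := ht (g.cr (g.pr w₁ m y) w₂)
  refine ⟨n, g.cr y w₁, g.cr (g.pr w₁ m y) w₂, g.pr w₁ m y, h.perp_symm _ _ hn,
    h.perp_symm _ _ (h.pr_perp e4 e5), h.st_symm _ _ e3, h.perp_symm _ _ (h.cr_l _ _ e6),
    h.perp_symm _ _ (h.pr_perp_line e1 e2), h.perp_symm _ _ (h.cr_l _ _ e7),
    h.perp_symm _ _ (h.pr_perp_line e4 e5), ?_, ?_⟩
  · rw [hs] at *; omega
  · rw [hs] at *; omega

end col

theorem R1_st {y y' : P} (e : g.R1 y y') : g.st y y' := by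
  obtain ⟨n, l, l', z, h1, h2, h3, h4, h5, h6, h7, h8, h9⟩ := e
  obtain ⟨t, ht, hs⟩ := h.label
  have i1 := h.perp_st _ _ h1
  have i2 := h.perp_st _ _ h2
  have i4 := h.perp_st _ _ h4
  have i7 := h.perp_st _ _ h7
  rw [hs] at *
  have := ht n; have := ht l; have := ht l'; have := ht y; have := ht y'
  omega

theorem R1_symm {y y' : P} (e : g.R1 y y') : g.R1 y' y := by
  have hst := h.R1_st e
  obtain ⟨n, l, l', z, h1, h2, h3, h4, h5, h6, h7, h8, h9⟩ := e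
  exact ⟨n, l', l, z, h2, h1, h.st_trans _ _ _ (h.st_symm _ _ hst) h3, h7, h6, h5, h4,
    h.st_symm _ _ h8, fun e => h9 (h.st_trans _ _ _ h8 e)⟩

theorem sim_st {y y' : P} (e : g.sim y y') : g.st y y' := by
  induction e with
  | rel _ _ e => exact h.R1_st e
  | refl _ => exact h.st_refl _
  | symm _ _ _ ih => exact h.st_symm _ _ ih
  | trans _ _ _ _ _ ih1 ih2 => exact h.st_trans _ _ _ ih1 ih2

omit h in
theorem sim_refl (y : P) : g.sim y y := Relation.EqvGen.refl _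

end Inc.IsGeo

end Pool.Agent.FourGp
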