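import Pool.Agent.Lib.MP_fb3619_al.Geom
import Pool.Agent.Lib.MP_fb3619_al.Alg

/-!
# Statements of the modules, part 1 (board `fb_modules`); proofs: `Paper.md`

A: abstract incidence geometry. B: the geometry of involutions. C: algebra. D: reduction.
Write `theorem <mod> (h1 : Used1S) ... : <Mod>S` in `H<nn>/<Mod>.lean`.
-/

universe u

namespace Pool.Agent.FourGp

open Equiv

/-! ## A. Abstract geometry -/

/-- DET. Elements of `TW v x` agreeing on the points (of the type of `x`) of one line through `v`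
agree on all points of the type of `x`. -/
def DetS : Prop := ∀ (P : Type u) (g : Inc P), g.IsGeo → ∀ (v x n : P) (φ ψ : Perm P × Perm P),
  g.perp v x → g.TW v x φ → g.TW v x ψ → g.perp v n → ¬ g.st n x →
  (∀ y, g.st y x → g.perp y n → φ.1 y = ψ.1 y) → ∀ y, g.st y x → φ.1 y = ψ.1 y

/-- NCEN (3.5). -/
def NcenS : Prop := ∀ (P : Type u) (g : Inc P), g.IsGeo → ∀ (v x : P) (φ ψ : Perm P × Perm P),
  g.perp v x → g.TW v x φ → ψ ∈ g.Nn v x → ∀ y, g.st y x → φ.1 (ψ.1 y) = ψ.1 (φ.1 y)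

/-- TCRS (3.6). -/
def TcrsS : Prop := ∀ (P : Type u) (g : Inc P), g.IsGeo → ∀ (v w x : P) (φ ψ : Perm P × Perm P),
  g.perp v x → g.perp w x → ¬ g.st v w → g.TT v x φ → g.TT w x ψ →
  ∀ y, g.st y x → φ.1 (ψ.1 y) = ψ.1 (φ.1 y)

/-- NSAM (3.7). -/
def NsamS : Prop := ∀ (P : Type u) (g : Inc P), g.IsGeo → g.LemF →
  ∀ (v v' x : P) (φ ψ : Perm P × Perm P), g.perp v x → g.perp v' x → g.st v v' →
  g.TT v x φ → ψ ∈ g.Nn v' x → ∀ y, g.st y x → φ.1 (ψ.1 y) = ψ.1 (φ.1 y)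

/-- NCOM. -/
def NcomS : Prop := ∀ (P : Type u) (g : Inc P), g.IsGeo → g.LemF →
  ∀ (x : P) (φ ψ : Perm P × Perm P), φ ∈ g.NN x → ψ ∈ g.NN x →
  ∀ y, g.st y x → φ.1 (ψ.1 y) = ψ.1 (φ.1 y)

/-- STEP (3.1). -/
def StepS : Prop := ∀ (P : Type u) (g : Inc P), g.IsGeo → g.LemF → ∀ (n l l' z y y' x : P),
  g.perp n y → g.perp n y' → g.st y z → g.perp l y → g.perp l z → g.perp l' z → g.perp l' y' →
  g.st l l' → ¬ g.st l n → g.st y x → ∃ φ ∈ g.Nn (g.cr n x) x, φ.1 y = y'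

/-- GENS (3.2). -/
def GensS : Prop := ∀ (P : Type u) (g : Inc P), g.IsGeo → ∀ (v x : P) (φ : Perm P × Perm P),
  φ ∈ g.Nn v x → ∀ y, g.st y x → g.sim y (φ.1 y)

/-- SIMN (3.3). -/
def SimnS : Prop := ∀ (P : Type u) (g : Inc P), g.IsGeo → g.LemF → ∀ (v w x y y' : P),
  g.perp v x → g.perp w x → ¬ g.st v w → g.st y x → g.sim y y' →
  ∃ φ ∈ g.Nn v x, ∃ ψ ∈ g.Nn w x, ψ.1 (φ.1 y) = y'

/-- EQV: equivariance, polarity, invariance of `sim`. -/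
def EqvS : Prop := ∀ (P : Type u) (g : Inc P), g.IsGeo →
  (∀ γ : Perm P × Perm P, g.Col γ → ∀ (v x : P), ∀ φ ∈ g.Nn v x,
    γ * φ * γ⁻¹ ∈ g.Nn (γ.1 v) (γ.2 x)) ∧
  (∀ (v x : P), ∀ φ ∈ g.Nn v x, (φ.2, φ.1) ∈ g.Nn x v) ∧
  (∀ γ : Perm P × Perm P, g.Col γ → ∀ x y, g.sim x y →
    g.sim (γ.1 x) (γ.1 y) ∧ g.sim (γ.2 x) (γ.2 y))

/-- PROJ (3.8). -/
def ProjS : Prop := ∀ (P : Type u) (g : Inc P), g.IsGeo → g.LemF →
  (∀ w n y y' : P, g.sim y y' → ¬ g.st w y → g.st n w → g.sim (g.pr w n y) (g.pr w n y')) ∧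
  (∀ v w w' x n y : P, g.perp v x → g.perp x w → g.perp x w' → g.st w w' → ¬ g.st v w →
    g.perp v n → g.st n w → g.st y x → g.sim (g.pr w n y) (g.pr w' n y))

/-- LINE. -/
def LineS : Prop := ∀ (P : Type u) (g : Inc P), g.IsGeo → g.LemF → ∀ a b c y : P,
  g.perp a b → g.perp b c → g.perp a c → g.sim b y → g.perp y c →
  (∃ φ ∈ g.Nn a b, φ.1 b = y ∧ φ.2 a = g.cr y c) ∧ g.sim a (g.cr y c)

/-- REG: `NN x` is regular on every class. -/
def RegS : Prop := ∀ (P : Type u) (g : Inc P), g.IsGeo → g.LemF →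
  (∀ (x : P) (φ : Perm P × Perm P) (y y' : P), φ ∈ g.NN x → g.st y x → φ.1 y = y →
    g.sim y y' → φ.1 y' = y') ∧
  (∀ x y y' : P, g.st y x → g.sim y y' → ∃ φ ∈ g.NN x, φ.1 y = y')

/-- CLD: the class of `a` in coordinates. -/
def CldS : Prop := ∀ (P : Type u) (g : Inc P), g.IsGeo → g.LemF → ∀ a b c z : P,
  g.perp a b → g.perp b c → g.perp a c → g.st a z →
  (g.sim a z ↔ g.sim a (g.pr c c z) ∧ g.sim a (g.pr b b z))

/-- BILA: an f-map with base line `c` is invariant under `TT a c`. -/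
def BilaS : Prop := ∀ (P : Type u) (g : Inc P), g.IsGeo → ∀ (a b c w₁ w₂ m y : P)
  (γ : Perm P × Perm P), g.perp a b → g.perp b c → g.perp a c → g.TT a c γ →
  g.perp b w₁ → g.st w₁ c → g.perp b w₂ → g.st w₂ c → g.perp a m → g.st m c → g.st y b →
  g.perp y c → g.fm (γ.1 w₁) (γ.1 w₂) c m y = g.fm w₁ w₂ c m y

/-- BILB: the collineation inducing an f-map does not change if `n, m` are moved by `TT c b`. -/
def BilbS : Prop := ∀ (P : Type u) (g : Inc P), g.IsGeo → ∀ (a b c w₁ w₂ n m : P)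
  (γ φ φ' : Perm P × Perm P), g.perp a b → g.perp b c → g.perp a c → g.TT c b γ →
  g.Ind a b w₁ w₂ n m φ → g.Ind a b w₁ w₂ (γ.2 n) (γ.2 m) φ' → ∀ y, g.st y b → φ.1 y = φ'.1 y

/-! ## B. The geometry of involutions -/

/-- `N V`. -/
def HV {G : Type u} [Group G] (N : Subgroup G) (a b c : G) : Subgroup G :=
  N ⊔ Subgroup.closure {a, b, c}

/-- INVT: `b` inverts `C_K(a)`. -/
def InvtS : Prop := ∀ (G : Type u) [Group G] (H K : Subgroup G) (a b c : G), Cfg H K a b c →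
  ∀ k ∈ K, a * k = k * a → b * k * b = k⁻¹

/-- REBA: every flag gives a configuration. -/
def RebaS : Prop := ∀ (G : Type u) [Group G] (H K : Subgroup G) (a b c : G), Cfg H K a b c →
  ∀ x y : Pt H, (inc H K).perp x y → Cfg H K x.1 y.1 (x.1 * y.1)

/-- GEOM: the involutions form a geometry. -/
def GeomS : Prop := ∀ (G : Type u) [Group G] (H K : Subgroup G) (a b c : G), Cfg H K a b c →
  (inc H K).IsGeo ∧
  (∀ x y : Pt H, ¬ (inc H K).st x y → ((inc H K).cr x y).1 = iota (x.1 * y.1)) ∧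
  (∀ x y : Pt H, (inc H K).perp x y → ((inc H K).cr x y).1 = x.1 * y.1)

/-- DECO: `K = C_K(z) · {s : s^z = s⁻¹}` uniquely. -/
def DecoS : Prop := ∀ (G : Type u) [Group G] (H K : Subgroup G) (a b c : G), Cfg H K a b c →
  ∀ z : Pt H, ∀ k ∈ K, ∃ w ∈ K, ∃ s ∈ K, w * z.1 = z.1 * w ∧ z.1 * s * z.1 = s⁻¹ ∧ k = w * s ∧
    ∀ w' ∈ K, ∀ s' ∈ K, w' * z.1 = z.1 * w' → z.1 * s' * z.1 = s'⁻¹ → k = w' * s' → w' = w

/-- HMAP: the collineation `L_k = (H_k, H_{k⁻¹}⁻¹)`, `H_k x = ι(x k)`. -/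
def HmapS : Prop := ∀ (G : Type u) [Group G] (H K : Subgroup G) (a b c : G), Cfg H K a b c →
  ∀ k ∈ K, ∃ φ : Perm (Pt H) × Perm (Pt H), (inc H K).Col φ ∧
    (∀ x : Pt H, (φ.1 x).1 = iota (x.1 * k)) ∧ (∀ x : Pt H, iota ((φ.2 x).1 * k⁻¹) = x.1)

/-- TAU: the special f-maps `f(u, uξ⁻¹; u, uν)` are induced by `L_ξ L_{ξν}⁻¹ L_ν`. -/
def TauS : Prop := ∀ (G : Type u) [Group G] (H K : Subgroup G) (a b c : G), Cfg H K a b c →
  ∀ v x u w m : Pt H, (inc H K).perp v x → u.1 = v.1 * x.1 →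
  ∀ ν ∈ K, ∀ ξ ∈ K, v.1 * ν = ν * v.1 → x.1 * ξ = ξ * x.1 → w.1 = u.1 * ξ⁻¹ → m.1 = u.1 * ν →
  ∃ φ, (inc H K).Ind v x u w u m φ

/-- LEMF: Lemma F. -/
def LemfS : Prop := ∀ (G : Type u) [Group G] (H K : Subgroup G) (a b c : G), Cfg H K a b c →
  (inc H K).LemF

/-- CJC: conjugations are collineations. -/
def CjcS : Prop := ∀ (G : Type u) [Group G] (H K : Subgroup G) (a b c : G), Cfg H K a b c →
  ∀ k : H, (inc H K).Col (cj H k, cj H k)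

/-- BTRI (section 4): `C_K(x)` fixes the classes of the type of `x`. -/
def BtriS : Prop := ∀ (G : Type u) [Group G] (H K : Subgroup G) (a b c : G), Cfg H K a b c →
  ∀ (x : Pt H) (k : H), k.1 ∈ K → x.1 * k = k * x.1 →
  ∀ y, (inc H K).st y x → (inc H K).sim y (cj H k y)

/-- KCLS: the action of `K` on the classes. -/
def KclsS : Prop := ∀ (G : Type u) [Group G] (H K : Subgroup G) (a b c : G), Cfg H K a b c →
  (∀ k : H, k.1 ∈ K → ∀ x y : Pt H, (inc H K).st x y → (inc H K).sim x (cj H k x) →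
    (inc H K).sim y (cj H k y)) ∧
  (∀ k ∈ K, ∀ k' ∈ K, k⁻¹ * k'⁻¹ * k * k' ∈ K0 H K) ∧
  (∀ h ∈ H, ∀ k ∈ K0 H K, h⁻¹ * k * h ∈ K0 H K)

/-- K0C: the elements of `K⁰ ∩ C_K(c)`. -/
def K0cS : Prop := ∀ (G : Type u) [Group G] (H K : Subgroup G) (a b c : G), Cfg H K a b c →
  ∀ γ ∈ K, γ * c = c * γ → ∀ pa pb qa qb : Pt H, pa.1 = a → pb.1 = b → qa.1 = a * γ →
  qb.1 = b * γ → (γ ∈ K0 H K ↔ (inc H K).sim pb qb) ∧ (γ ∈ K0 H K ↔ (inc H K).sim pa qa)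

/-- CLSA: the class of `b`. -/
def ClsaS : Prop := ∀ (G : Type u) [Group G] (H K : Subgroup G) (a b c : G), Cfg H K a b c →
  ∀ pb y : Pt H, pb.1 = b → ((inc H K).sim pb y ↔ b * y.1 ∈ K0 H K)

/-- SUBC: `V`-invariant subgroups give configurations. -/
def SubcS : Prop := ∀ (G : Type u) [Group G] (H K : Subgroup G) (a b c : G), Cfg H K a b c →
  ∀ N ≤ K, (∀ n ∈ N, a * n * a ∈ N) → (∀ n ∈ N, b * n * b ∈ N) → (∀ n ∈ N, c * n * c ∈ N) →
  Cfg (HV N a b c) N a b c ∧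
  ∀ x, x ∈ HV N a b c ↔ x ∈ N ∨ x * a ∈ N ∨ x * b ∈ N ∨ x * c ∈ N

/-! ## C. Algebra -/

/-- OPS. -/
def OpsS : Prop := ∀ (R : Type u) [Ring R], (∀ x : R, x + x = 0 → x = 0) →
  ∀ (r d j : R) (n : ℕ), r = (1 + j) * d → r * ((1 - j) * d) = 1 → ((1 - j) * d) * r = 1 →
  r ^ (2 * n + 1) = 1 →
  d * j = j * d ∧ (∃ d', d * d' = 1 ∧ d' * d = 1) ∧ (1 - j * j) * (d * d) = 1 ∧
  (∃ v, v * (1 - j * j) = 1 ∧ (1 - j * j) * v = 1) ∧ r * r * (1 - j) = 1 + j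

/-- OPSB. -/
def OpsbS : Prop := ∀ (R : Type u) [Ring R], (∀ x : R, x + x = 0 → x = 0) →
  ∀ (r d j r' d' j' : R) (n n' : ℕ), r = (1 + j) * d → r * ((1 - j) * d) = 1 →
  ((1 - j) * d) * r = 1 → r ^ (2 * n + 1) = 1 → r' = (1 + j') * d' → r' * ((1 - j') * d') = 1 →
  ((1 - j') * d') * r' = 1 → r' ^ (2 * n' + 1) = 1 → r * r' = r' * r → j * j' = j' * j

/-- TFORM: multiplication by `x x'` is in the centroid. -/
def TformS : Prop := ∀ (X Y Z : Type u) [AddCommGroup X] [AddCommGroup Y] [AddCommGroup Z]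
  (T : Tri X Y Z), T.Good → ∀ x x' : X, ∃ e, T.IsForm x x' e

/-- TCEN: the centroid is commutative, its elements are determined by one component. -/
def TcenS : Prop := ∀ (X Y Z : Type u) [AddCommGroup X] [AddCommGroup Y] [AddCommGroup Z]
  (T : Tri X Y Z), T.Good →
  (∀ e f, T.IsCen e → T.IsCen f → e * f = f * e) ∧
  (∀ e f, T.IsCen e → T.IsCen f → (∀ y, e.2.1 y = f.2.1 y) → e = f)

/-- TUNI: units. -/
def TuniS : Prop := ∀ (X Y Z : Type u) [AddCommGroup X] [AddCommGroup Y] [AddCommGroup Z]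
  (T : Tri X Y Z), T.Good → ∀ t, T.UniX t → ∀ e, T.IsForm t t e → ∃ u, T.IsCen u ∧ u * (1 + e) = 1

/-- TAX: relations between the forms. -/
def TaxS : Prop := ∀ (X Y Z : Type u) [AddCommGroup X] [AddCommGroup Y] [AddCommGroup Z]
  (T : Tri X Y Z), T.Good →
  (∀ x x' e, T.IsForm x x' e → T.IsForm x' x e) ∧
  (∀ (m m' m'' : T.MX) e f, T.IsForm m.1 m'.1 e → T.IsForm m'.1 m''.1 f → e.1 m'' = f.1 m) ∧
  (∀ (x : T.MX) (y : T.MY) (z : T.MZ) e, T.IsForm x.1 (T.yz y.1 z.1) e →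
    T.rot.rot.IsForm (T.xy x.1 y.1) z.1 (e.2.2, e.1, e.2.1)) ∧
  (∀ (m m' : T.MX) c e, T.IsCen c → T.IsForm m.1 m'.1 e → T.IsForm (c.1 m).1 m'.1 (c * e))

/-- TGR: a graded system gives a commutative ring. -/
def TgrS : Prop := ∀ (E MX MY MZ : Type u) [CommRing E] [AddCommGroup MX] [AddCommGroup MY]
  [AddCommGroup MZ] [Module E MX] [Module E MY] [Module E MZ] (S : GS E MX MY MZ),
  ∃ (R : Type u) (_ : CommRing R) (i0 : E →+* R) (jx : MX →+ R) (jy : MY →+ R) (jz : MZ →+ R),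
    (∀ e x y z, i0 e + jx x + jy y + jz z = 0 → e = 0 ∧ x = 0 ∧ y = 0 ∧ z = 0) ∧
    (∀ r, ∃ e x y z, r = i0 e + jx x + jy y + jz z) ∧
    (∀ x y, jx x * jy y = jz (S.xy x y)) ∧ (∀ y z, jy y * jz z = jx (S.yz y z)) ∧
    (∀ z x, jz z * jx x = jy (S.zx z x)) ∧ (∀ x x', jx x * jx x' = i0 (S.fx x x')) ∧
    (∀ y y', jy y * jy y' = i0 (S.fy y y')) ∧ (∀ z z', jz z * jz z' = i0 (S.fz z z')) ∧
    (∀ e x, i0 e * jx x = jx (e • x)) ∧ (∀ e y, i0 e * jy y = jy (e • y)) ∧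
    (∀ e z, i0 e * jz z = jz (e • z))

/-- TRING: the ring. -/
def TringS : Prop := ∀ (X Y Z : Type u) [AddCommGroup X] [AddCommGroup Y] [AddCommGroup Z]
  (T : Tri X Y Z), T.Good → ∃ (R : Type u) (_ : CommRing R), Nonempty (RD T R)

/-- Rotation matrices. -/
def rotA {R : Type u} [CommRing R] (C S : R) : Matrix (Fin 3) (Fin 3) R :=
  !![1, 0, 0; 0, C, S; 0, -S, C]

/-- Rotation matrices. -/
def rotB {R : Type u} [CommRing R] (C S : R) : Matrix (Fin 3) (Fin 3) R :=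
  !![C, 0, -S; 0, 1, 0; S, 0, C]

/-- Rotation matrices. -/
def rotC {R : Type u} [CommRing R] (C S : R) : Matrix (Fin 3) (Fin 3) R :=
  !![C, S, 0; -S, C, 0; 0, 0, 1]

/-- ROTI: entries of rotations of finite order are integral up to a factor 2. -/
def RotiS : Prop := ∀ (R : Type u) [CommRing R] (C S : R) (n : ℕ), C * C + S * S = 1 → 0 < n →
  (rotA C S ^ n = 1 ∨ rotB C S ^ n = 1 ∨ rotC C S ^ n = 1) →
  IsIntegral ℤ (2 * C) ∧ IsIntegral ℤ (2 * S)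

/-- LINA: reduction modulo `N` is injective on torsion (Minkowski). -/
def LinaS : Prop := ∀ (S : Type u) [CommRing S], (∃ v : S, 2 * v = 1) →
  (∃ F : Finset S, ∀ s : S, ∃ k : ℕ, 2 ^ k * s ∈ Submodule.span ℤ (F : Set S)) →
  ∃ N : ℕ, Finite (S ⧸ Ideal.span {(N : S)}) ∧
    ∀ g : GL (Fin 3) S, (∃ n > 0, g ^ n = 1) →
    (∀ i j, (N : S) ∣ g.1 i j - (1 : Matrix (Fin 3) (Fin 3) S) i j) → g = 1

/-- LIN: finitely generated periodic groups of matrices with integral entries are finite. -/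
def LinS : Prop := ∀ (R : Type u) [CommRing R], (∀ r : R, r + r = 0 → r = 0) →
  ∀ F : Set (GL (Fin 3) R), F.Finite →
  (∀ g ∈ F, ∀ i j, IsIntegral ℤ (2 * g.1 i j) ∧ IsIntegral ℤ (2 * (g⁻¹).1 i j)) →
  (∀ g ∈ Subgroup.closure F, ∃ n > 0, g ^ n = 1) → Finite (Subgroup.closure F)

/-- REP: projective representations by rotations. -/
def RepS : Prop := ∀ (R : Type u) [CommRing R], (∀ r : R, r + r = 0 → r = 0) →
  ∀ (L : Type u) [Group L] (I : Type u) (act : I → L → I), (∀ x, act x 1 = x) →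
  (∀ x g g', act x (g * g') = act (act x g) g') →
  ∀ (vec : I → Fin 3 → R) (e : Fin 3 → I), (∀ i, vec (e i) = Pi.single i 1) →
  (∀ (x : I) (g : L) (v : Rˣ), vec x = (v : R) • vec (act x g) → act x g = x) →
  (∀ g, (∀ i, act (e i) g = e i) → g = 1) → (∀ g : L, ∃ n > 0, g ^ n = 1) →
  ∀ F : Set L, F.Finite → Subgroup.closure F = ⊤ →
  (∀ g ∈ F, ∃ C S : R, C * C + S * S = 1 ∧
    ((∀ x, ∃ v : Rˣ, (rotA C S).mulVec (vec x) = (v : R) • vec (act x g)) ∨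
     (∀ x, ∃ v : Rˣ, (rotB C S).mulVec (vec x) = (v : R) • vec (act x g)) ∨
     (∀ x, ∃ v : Rˣ, (rotC C S).mulVec (vec x) = (v : R) • vec (act x g)))) →
  Finite L

/-! ## D. Reduction -/

/-- `K` with a four-group of automorphisms without common fixed points. -/
structure FixP (K : Type u) [Group K] (σ τ : K ≃* K) : Prop where
  ss : ∀ k, σ (σ k) = k
  tt : ∀ k, τ (τ k) = k
  st : ∀ k, σ (τ k) = τ (σ k)
  odd : ∀ k : K, ∃ n : ℕ, k ^ (2 * n + 1) = 1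
  fix : ∀ k, σ k = k → τ k = k → k = 1

/-- Just infinite version. -/
structure JI (K : Type u) [Group K] (σ τ : K ≃* K) : Prop extends FixP K σ τ where
  fg : Group.FG K
  inf : Infinite K
  ji : ∀ N : Subgroup K, N.Normal → (∀ n ∈ N, σ n ∈ N) → (∀ n ∈ N, τ n ∈ N) → N ≠ ⊥ →
    N.index ≠ 0

/-- Just infinite version inside a group. -/
structure JC {G : Type u} [Group G] (H K : Subgroup G) : Prop where
  fg : K.FG
  inf : Infinite K
  ji : ∀ M ≤ K, (∀ h ∈ H, ∀ m ∈ M, h⁻¹ * m * h ∈ M) → M ≠ ⊥ → M.relIndex K ≠ 0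

/-- LOCF: reduction to finitely generated groups. -/
def LocfS : Prop := ∀ (K : Type u) [Group K] (σ τ : K ≃* K), FixP K σ τ →
  ∀ S : Subgroup K, S.FG → Infinite S →
  ∃ (K' : Type u) (_ : Group K') (σ' τ' : K' ≃* K'), FixP K' σ' τ' ∧ Group.FG K' ∧ Infinite K'

/-- QUOF: quotients. -/
def QuofS : Prop := ∀ (K : Type u) [Group K] (σ τ : K ≃* K), FixP K σ τ →
  ∀ (N : Subgroup K) [N.Normal], (∀ n ∈ N, σ n ∈ N) → (∀ n ∈ N, τ n ∈ N) →
  ∃ σ' τ' : (K ⧸ N) ≃* (K ⧸ N), FixP (K ⧸ N) σ' τ' ∧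
    (∀ k : K, σ' (k : K ⧸ N) = (σ k : K)) ∧ (∀ k : K, τ' (k : K ⧸ N) = (τ k : K))

/-- ZORN. -/
def ZornS : Prop := ∀ (K : Type u) [Group K] (σ τ : K ≃* K), FixP K σ τ → Group.FG K →
  Infinite K → ∃ (K' : Type u) (_ : Group K') (σ' τ' : K' ≃* K'), JI K' σ' τ'

/-- SEMI: the semidirect product. -/
def SemiS : Prop := ∀ (K : Type u) [Group K] (σ τ : K ≃* K), JI K σ τ →
  ∃ (G : Type u) (_ : Group G) (N : Subgroup G) (a b c : G), Cfg ⊤ N a b c ∧ JC ⊤ N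

/-- CENT: subgroups of finite index have trivial centralizer. -/
def CentS : Prop := ∀ (G : Type u) [Group G] (H K : Subgroup G) (a b c : G), Cfg H K a b c →
  JC H K → ∀ L ≤ K, L.relIndex K ≠ 0 → ∀ x ∈ K, (∀ l ∈ L, x * l = l * x) → x = 1

/-- K0FI: `K⁰` has finite index if `K` is finitely generated. -/
def K0fiS : Prop := ∀ (G : Type u) [Group G] (H K : Subgroup G) (a b c : G), Cfg H K a b c →
  K.FG → K0 H K ≤ K ∧ (K0 H K).relIndex K ≠ 0 ∧ (K0 H K).FG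

end Pool.Agent.FourGp
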