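import Pool.Agent.Lib.MP_fb3619_al.Base2
import Pool.Agent.Lib.MP_fb3619_al.H57.Mulf
import Pool.Agent.Lib.MP_fb3619_al.H57.Mula
import Pool.Agent.Lib.MP_fb3619_al.H57.Mulb
import Pool.Agent.Lib.MP_fb3619_al.H78.Neg

/-! Results NEG, MULF, MULA, MULB of part 2. -/

universe u

namespace Pool.Agent.FourGp

theorem part2_neg : NegS.{u} := H78.neg
theorem part2_mulf : MulfS.{u} := H57.mulf
theorem part2_mula : MulaS.{u} := H57.mula
theorem part2_mulb : MulbS.{u} := H57.mulb part2_neg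

end Pool.Agent.FourGp
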